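import Pool.Agent.H580.GT.Sw

/-!
Self-avoiding walks on `ℤ^d`: finiteness, submultiplicativity, the connective constant.
-/

set_option autoImplicit false

open Filter Topology

namespace Pool.Agent.H580.GT

variable {d : ℕ}

/-- `ω` is an `n`-step self-avoiding walk on `ℤ^d` from `0` -/
def IsSAW (n : ℕ) (ω : Fin (n + 1) → V d) : Prop :=
  ω 0 = 0 ∧ Function.Injective ω ∧ ∀ i : Fin n, Adj (ω i.castSucc) (ω i.succ)

/-- the number of the `n`-step self-avoiding walks -/
noncomputable def C (d n : ℕ) : ℕ := Nat.card {ω : Fin (n + 1) → V d // IsSAW n ω}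

theorem Adj.coord {p q : V d} (h : Adj p q) (j : Fin d) : |q j - p j| ≤ 1 := by
  unfold Adj at h
  rw [← h]
  exact Finset.single_le_sum (f := fun j => |q j - p j|) (fun _ _ => abs_nonneg _) (Finset.mem_univ j)

/-- the sites of an `n`-step walk -/
theorem mem_box {n : ℕ} {ω : Fin (n + 1) → V d} (h : IsSAW n ω) (i : Fin (n + 1)) (j : Fin d) :
    |ω i j| ≤ (i : ℕ) := by
  obtain ⟨h0, -, h1⟩ := h
  induction i using Fin.induction with
  | zero => simp [h0]
  | succ i ih =>
    have h3 := (h1 i).coord j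
    simp only [Fin.val_castSucc, Fin.val_succ] at ih ⊢
    rw [abs_le] at h3 ih ⊢
    push_cast
    refine ⟨?_, ?_⟩ <;> omega

theorem saw_finite (d n : ℕ) : {ω : Fin (n + 1) → V d | IsSAW n ω}.Finite := by
  refine (Set.finite_Icc (fun _ _ => -(n : ℤ)) (fun _ _ => (n : ℤ))).subset fun ω hω => ?_
  have key : ∀ i j, |ω i j| ≤ n := fun i j => (mem_box hω i j).trans (by have := i.2; omega)
  exact ⟨fun i j => (abs_le.1 (key i j)).1, fun i j => (abs_le.1 (key i j)).2⟩

instance (d n : ℕ) : Finite {ω : Fin (n + 1) → V d // IsSAW n ω} := (saw_finite d n).to_subtype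

theorem C_ncard (d n : ℕ) : {ω : Fin (n + 1) → V d | IsSAW n ω}.ncard = C d n := by
  unfold C
  exact (Nat.card_coe_set_eq _).symm

/-- a straight walk -/
theorem C_pos (hd : 1 ≤ d) (n : ℕ) : 1 ≤ C d n := by
  have : Nonempty {ω : Fin (n + 1) → V d // IsSAW n ω} := by
    refine ⟨⟨fun i => Pi.single ⟨0, hd⟩ ((i : ℕ) : ℤ), ?_, ?_, ?_⟩⟩
    · simp
    · intro i k h
      have := congrFun h ⟨0, hd⟩
      simp only [Pi.single_eq_same] at this
      exact Fin.ext (by exact_mod_cast this)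
    · intro i
      unfold Adj
      rw [Finset.sum_eq_single (⟨0, hd⟩ : Fin d)]
      · simp
      · intro j _ hj
        simp [Pi.single_eq_of_ne hj]
      · intro h
        exact absurd (Finset.mem_univ _) h
  unfold C
  exact Nat.one_le_iff_ne_zero.2 (Nat.card_ne_zero.2 ⟨this, inferInstance⟩)

theorem C_submul (d m n : ℕ) : C d (m + n) ≤ C d m * C d n := by
  unfold C
  rw [← Nat.card_prod]
  have key : ∀ ω : Fin (m + n + 1) → V d, IsSAW (m + n) ω →
      IsSAW m (fun i : Fin (m + 1) => ω ⟨i, by omega⟩) ∧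
      IsSAW n (fun i : Fin (n + 1) => ω ⟨m + i, by omega⟩ - ω ⟨m, by omega⟩) := by
    intro ω hω
    obtain ⟨h0, h1, h2⟩ := hω
    refine ⟨⟨?_, ?_, ?_⟩, ⟨?_, ?_, ?_⟩⟩
    · exact h0
    · intro i k h
      have := h1 h
      simp only [Fin.mk.injEq] at this
      exact Fin.ext this
    · intro i
      exact h2 ⟨i, by omega⟩
    · simp
    · intro i k h
      have h3 : ω ⟨m + i, by omega⟩ = ω ⟨m + k, by omega⟩ := sub_left_injective h
      have := h1 h3
      simp only [Fin.mk.injEq] at this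
      exact Fin.ext (by omega)
    · intro i
      have h3 := h2 ⟨m + i, by omega⟩
      unfold Adj at h3 ⊢
      simpa [Fin.castSucc, Fin.succ, add_assoc] using h3
  refine Nat.card_le_card_of_injective
    (fun ω : {ω : Fin (m + n + 1) → V d // IsSAW (m + n) ω} =>
      ((⟨fun i => ω.1 ⟨i, by omega⟩, (key ω.1 ω.2).1⟩,
        ⟨fun i => ω.1 ⟨m + i, by omega⟩ - ω.1 ⟨m, by omega⟩, (key ω.1 ω.2).2⟩) :
        {ω : Fin (m + 1) → V d // IsSAW m ω} × {ω : Fin (n + 1) → V d // IsSAW n ω})) ?_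
  intro ω ω' h
  rw [Prod.mk.injEq, Subtype.mk.injEq, Subtype.mk.injEq] at h
  obtain ⟨h1, h2⟩ := h
  apply Subtype.ext
  funext k
  have hm : ω.1 ⟨m, by omega⟩ = ω'.1 ⟨m, by omega⟩ := congrFun h1 ⟨m, by omega⟩
  by_cases hk : (k : ℕ) ≤ m
  · exact congrFun h1 ⟨k, by omega⟩
  · have h3 := congrFun h2 ⟨(k : ℕ) - m, by have := k.2; omega⟩
    simp only [hm] at h3
    have h4 := sub_left_injective h3
    have e : (⟨m + ((k : ℕ) - m), by have := k.2; omega⟩ : Fin (m + n + 1)) = k := Fin.ext (by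
      change m + ((k : ℕ) - m) = k
      omega)
    simpa only [e] using h4

theorem sub_log (hd : 1 ≤ d) : Subadditive fun n => Real.log (C d n) := by
  intro m n
  have h1 : (0 : ℝ) < C d m := by exact_mod_cast C_pos hd m
  have h2 : (0 : ℝ) < C d n := by exact_mod_cast C_pos hd n
  have h3 : (0 : ℝ) < C d (m + n) := by exact_mod_cast C_pos hd (m + n)
  rw [← Real.log_mul h1.ne' h2.ne']
  exact Real.log_le_log h3 (by exact_mod_cast C_submul d m n)

theorem bdd_log (hd : 1 ≤ d) : BddBelow (Set.range fun n : ℕ => Real.log (C d n) / n) := by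
  refine ⟨0, ?_⟩
  rintro _ ⟨n, rfl⟩
  have h1 : (1 : ℝ) ≤ C d n := by exact_mod_cast C_pos hd n
  exact div_nonneg (Real.log_nonneg h1) (Nat.cast_nonneg _)

/-- the connective constant -/
theorem exists_mu (hd : 1 ≤ d) : ∃ μ : ℝ, 0 < μ ∧
    Tendsto (fun n : ℕ => (C d n : ℝ) ^ (1 / (n : ℝ))) atTop (𝓝 μ) ∧ ∀ n, μ ^ n ≤ (C d n : ℝ) := by
  refine ⟨Real.exp (sub_log hd).lim, Real.exp_pos _, ?_, ?_⟩
  · have h1 := (sub_log hd).tendsto_lim (bdd_log hd)
    have h2 := (Real.continuous_exp.tendsto _).comp h1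
    refine h2.congr fun n => ?_
    have h3 : (0 : ℝ) < C d n := by exact_mod_cast C_pos hd n
    change Real.exp (Real.log (C d n) / n) = _
    rw [Real.rpow_def_of_pos h3]
    congr 1
    ring
  · intro n
    have h3 : (0 : ℝ) < C d n := by exact_mod_cast C_pos hd n
    rcases Nat.eq_zero_or_pos n with rfl | hn
    · rw [pow_zero]
      exact_mod_cast C_pos hd 0
    · have h1 := (sub_log hd).lim_le_div (bdd_log hd) hn.ne'
      have hn0 : (0 : ℝ) < n := by exact_mod_cast hn
      rw [← Real.exp_nat_mul, ← Real.le_log_iff_exp_le h3]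
      rw [le_div_iff₀ hn0] at h1
      linarith

/-- growth -/
theorem C_growth {μ H : ℝ} (hμ : 0 < μ) (hH : 1 ≤ H) {n : ℕ} (hn : 1 ≤ n)
    (h : ∀ j ≤ n, (C d j : ℝ) ≤ H * μ ^ j) (m : ℕ) :
    (C d m : ℝ) ≤ H ^ (m / n + 1) * μ ^ m := by
  have hq : ∀ q r : ℕ, r ≤ n → (C d (q * n + r) : ℝ) ≤ H ^ (q + 1) * μ ^ (q * n + r) := by
    intro q
    induction q with
    | zero =>
      intro r hr
      simpa using h r hr
    | succ q ih =>
      intro r hr
      have e : (q + 1) * n + r = n + (q * n + r) := by ring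
      rw [e]
      have h1 : (C d (n + (q * n + r)) : ℝ) ≤ C d n * C d (q * n + r) := by
        exact_mod_cast C_submul d n (q * n + r)
      calc (C d (n + (q * n + r)) : ℝ) ≤ C d n * C d (q * n + r) := h1
        _ ≤ (H * μ ^ n) * (H ^ (q + 1) * μ ^ (q * n + r)) :=
            mul_le_mul (h n le_rfl) (ih r hr) (Nat.cast_nonneg _) (by positivity)
        _ = H ^ (q + 1 + 1) * μ ^ (n + (q * n + r)) := by ring
  have h2 := hq (m / n) (m % n) (Nat.mod_lt _ hn).le
  have e : m / n * n + m % n = m := Nat.div_add_mod' m n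
  rwa [e] at h2

end Pool.Agent.H580.GT
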