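import Pool.Agent.H580.GT.Sw

/-!
The number of walks with a large imbalance of the two patterns.
-/

set_option autoImplicit false

open scoped ENNReal

namespace Pool.Agent.H580.GT

open Pool.Agent.H986.GB

variable {d : ℕ}

section

variable {a b : ℕ} {Λ : Finset (V d)} {P P' : List (List (V d))}

/-- the centred contribution of the window `x + Λ` -/
noncomputable def dv (a b : ℕ) (Λ : Finset (V d)) (P P' : List (List (V d))) (r : ℝ)
    (w : V d → ℝ) (x : V d) (l : List (V d)) : ℝ :=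
  w x * ((if st a b Λ P P' x l = 2 then 1 else 0) - r * (if st a b Λ P P' x l = 1 then 1 else 0))

theorem switch_bound (hP : Pats Adj (↑Λ : Set (V d)) P P') (hne : P.flatten ≠ P'.flatten)
    {z : ℝ} (hz : 0 < z) {r : ℝ} (hr : r = z ^ ((P'.flatten.length : ℤ) - P.flatten.length))
    (S : Finset (V d)) (hS : ∀ x ∈ S, ∀ y ∈ S, x ≠ y → ∀ v ∈ win x Λ, v ∉ win y Λ)
    (w : V d → ℝ) (hw : ∀ x, |w x| ≤ 1) (lam : ℝ) :
    ∑' l : List (V d), Wt z l * ∏ x ∈ S, ef (st a b Λ P P' x l)
      (ENNReal.ofReal (Real.exp (-(lam * (r * w x)) - lam ^ 2 * (1 + r) ^ 2)))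
      (ENNReal.ofReal (Real.exp (lam * w x - lam ^ 2 * (1 + r) ^ 2))) ≤ ∑' l : List (V d), Wt z l := by
  have hr0 : 0 < r := by rw [hr]; positivity
  refine switches S (Wt z) (tg a b Λ P P') (st a b Λ P P') (fun x _ l => tg_tg hP hne x l)
    (fun x _ l h => st_tg_one hP hne h) (fun x _ l h => st_tg_two hP hne h)
    (fun x hx y hy hxy l => st_other hP hne (hS x hx y hy hxy) l) (ENNReal.ofReal r)
    (fun x _ l h => by rw [hr]; exact Wt_tg hP hz h) _ _ (fun x _ => ?_)
  rw [← ENNReal.ofReal_mul hr0.le, ← ENNReal.ofReal_add (Real.exp_pos _).le (by positivity)]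
  have e1 : (1 : ℝ≥0∞) + ENNReal.ofReal r = ENNReal.ofReal (1 + r) := by
    rw [ENNReal.ofReal_add zero_le_one hr0.le, ENNReal.ofReal_one]
  rw [e1]
  apply ENNReal.ofReal_le_ofReal
  have h := two_point (lam := lam) hr0 (hw x)
  rw [Real.exp_sub, Real.exp_sub]
  have hE := Real.exp_pos (lam ^ 2 * (1 + r) ^ 2)
  rw [← mul_div_assoc, ← add_div, div_le_iff₀ hE]
  exact h

theorem shows_subset {V : Type*} {W : Set V} : ∀ (Q : List (List V)) (l : List V), Shows W Q l →
    ∀ v ∈ Q.flatten, v ∈ l := by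
  intro Q
  induction Q with
  | nil => intro l _ v hv; simp at hv
  | cons q Q ih =>
    rintro l ⟨a, b, rfl, -, hb⟩ v hv
    rw [List.flatten_cons, List.mem_append] at hv
    rcases hv with hv | hv
    · simp [hv]
    · simp [ih b hb v hv]

/-- the walk has at most as many windows as sites -/
theorem card_st (hP : Pats Adj (↑Λ : Set (V d)) P P') (hne : P.flatten ≠ P'.flatten) :
    ∃ v₁ : V d, v₁ ∈ Λ ∧ ∀ (a b : ℕ) (x : V d) (l : List (V d)),
      st a b Λ P P' x l ≠ 0 → x + v₁ ∈ l := by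
  have hex := hP.ex
  cases hex with
  | nil => exact absurd rfl hne
  | @cons p p' P P' h _ =>
    obtain ⟨h1, h2, h3, -⟩ := h
    obtain ⟨v, t, rfl⟩ := List.exists_cons_of_ne_nil h1
    obtain ⟨v', t', rfl⟩ := List.exists_cons_of_ne_nil h2
    rw [List.head?_cons, List.head?_cons, Option.some.injEq] at h3
    subst h3
    refine ⟨v, hP.sub v (by simp), fun a b x l hst => ?_⟩
    have hval : st a b Λ ((v :: t) :: P) ((v :: t') :: P') x l = 1 ∨
        st a b Λ ((v :: t) :: P) ((v :: t') :: P') x l = 2 := by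
      revert hst
      unfold st
      split_ifs <;> simp
    rcases hval with h | h
    · rw [st_one] at h
      exact shows_subset _ _ h.2.shows _ (by simp [sh])
    · rw [st_two hP hne] at h
      exact shows_subset _ _ h.2.shows _ (by simp [sh])

theorem prod_ef (hP : Pats Adj (↑Λ : Set (V d)) P P') (hne : P.flatten ≠ P'.flatten)
    {r : ℝ} (S : Finset (V d)) (w : V d → ℝ) (lam : ℝ) (l : List (V d)) :
    ENNReal.ofReal (Real.exp (lam * ∑ x ∈ S, dv a b Λ P P' r w x l -
      lam ^ 2 * (1 + r) ^ 2 * l.length)) ≤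
    ∏ x ∈ S, ef (st a b Λ P P' x l)
      (ENNReal.ofReal (Real.exp (-(lam * (r * w x)) - lam ^ 2 * (1 + r) ^ 2)))
      (ENNReal.ofReal (Real.exp (lam * w x - lam ^ 2 * (1 + r) ^ 2))) := by
  classical
  have e1 : ∀ x ∈ S, ef (st a b Λ P P' x l)
      (ENNReal.ofReal (Real.exp (-(lam * (r * w x)) - lam ^ 2 * (1 + r) ^ 2)))
      (ENNReal.ofReal (Real.exp (lam * w x - lam ^ 2 * (1 + r) ^ 2))) =
      ENNReal.ofReal (Real.exp (lam * dv a b Λ P P' r w x l -
        if st a b Λ P P' x l ≠ 0 then lam ^ 2 * (1 + r) ^ 2 else 0)) := by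
    intro x _
    have hval : st a b Λ P P' x l = 0 ∨ st a b Λ P P' x l = 1 ∨ st a b Λ P P' x l = 2 := by
      unfold st
      split_ifs <;> simp
    unfold ef dv
    rcases hval with h | h | h
    · simp [h]
    · simp only [h]
      norm_num
      congr 2
      ring
    · simp only [h]
      norm_num
  rw [Finset.prod_congr rfl e1, ← ENNReal.ofReal_prod_of_nonneg (fun x _ => (Real.exp_pos _).le),
    ← Real.exp_sum]
  apply ENNReal.ofReal_le_ofReal
  apply Real.exp_le_exp.2
  rw [Finset.sum_sub_distrib, ← Finset.mul_sum]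
  have h1 : ∑ x ∈ S, (if st a b Λ P P' x l ≠ 0 then lam ^ 2 * (1 + r) ^ 2 else 0) ≤
      lam ^ 2 * (1 + r) ^ 2 * l.length := by
    rw [← Finset.sum_filter, Finset.sum_const, nsmul_eq_mul, mul_comm]
    apply mul_le_mul_of_nonneg_left _ (by positivity)
    obtain ⟨v₁, -, hv⟩ := card_st hP hne
    have h2 : (S.filter fun x => st a b Λ P P' x l ≠ 0).card ≤ l.toFinset.card := by
      apply Finset.card_le_card_of_injOn (fun x => x + v₁)
      · intro x hx
        simp only [Finset.coe_filter] at hx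
        simpa using hv a b x l hx.2
      · intro x _ y _ hxy
        exact add_left_injective v₁ hxy
    exact_mod_cast h2.trans (List.toFinset_card_le l)
  linarith

/-- the number of walks with a large imbalance -/
theorem count_le (hP : Pats Adj (↑Λ : Set (V d)) P P') (hne : P.flatten ≠ P'.flatten)
    {z : ℝ} (hz : 0 < z) {r : ℝ} (hr : r = z ^ ((P'.flatten.length : ℤ) - P.flatten.length))
    (S : Finset (V d)) (hS : ∀ x ∈ S, ∀ y ∈ S, x ≠ y → ∀ v ∈ win x Λ, v ∉ win y Λ)
    (w : V d → ℝ) (hw : ∀ x, |w x| ≤ 1) {lam : ℝ} (hlam : 0 ≤ lam) (n : ℕ) (u : ℝ)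
    (T : Finset (Fin (n + 1) → V d))
    (hT : ∀ ω ∈ T, IsW Adj 0 (List.ofFn ω) ∧
      u ≤ ∑ x ∈ S, dv a b Λ P P' r w x (List.ofFn ω)) :
    ENNReal.ofReal (T.card * (z ^ (n + 1) *
      Real.exp (lam * u - lam ^ 2 * (1 + r) ^ 2 * (n + 1 : ℕ)))) ≤ ∑' l : List (V d), Wt z l := by
  classical
  refine le_trans ?_ (switch_bound (a := a) (b := b) hP hne hz hr S hS w hw lam)
  set F : List (V d) → ℝ≥0∞ := fun l => Wt z l * ∏ x ∈ S, ef (st a b Λ P P' x l)
      (ENNReal.ofReal (Real.exp (-(lam * (r * w x)) - lam ^ 2 * (1 + r) ^ 2)))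
      (ENNReal.ofReal (Real.exp (lam * w x - lam ^ 2 * (1 + r) ^ 2))) with hF
  have hinj : Function.Injective (fun ω : T => List.ofFn ω.1) := by
    intro ω ω' h
    exact Subtype.ext (List.ofFn_injective h)
  refine le_trans ?_ (ENNReal.tsum_comp_le_tsum_of_injective hinj F)
  rw [tsum_fintype]
  have h1 : ∀ ω : T, ENNReal.ofReal (z ^ (n + 1) *
      Real.exp (lam * u - lam ^ 2 * (1 + r) ^ 2 * (n + 1 : ℕ))) ≤ F (List.ofFn ω.1) := by
    intro ω
    obtain ⟨h2, h3⟩ := hT ω.1 ω.2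
    rw [hF]
    simp only
    rw [ENNReal.ofReal_mul (by positivity)]
    apply mul_le_mul'
    · unfold Wt
      rw [if_pos h2, List.length_ofFn]
    · refine le_trans ?_ (prod_ef hP hne S w lam _)
      apply ENNReal.ofReal_le_ofReal
      apply Real.exp_le_exp.2
      rw [List.length_ofFn]
      have := mul_le_mul_of_nonneg_left h3 hlam
      linarith
  calc ENNReal.ofReal (T.card * (z ^ (n + 1) *
      Real.exp (lam * u - lam ^ 2 * (1 + r) ^ 2 * (n + 1 : ℕ))))
      = ∑ _ω : T, ENNReal.ofReal (z ^ (n + 1) *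
          Real.exp (lam * u - lam ^ 2 * (1 + r) ^ 2 * (n + 1 : ℕ))) := by
        rw [Finset.sum_const, Finset.card_univ, Fintype.card_coe, nsmul_eq_mul,
          ENNReal.ofReal_mul (Nat.cast_nonneg _), ENNReal.ofReal_natCast]
    _ ≤ _ := Finset.sum_le_sum fun ω _ => h1 ω

end

end Pool.Agent.H580.GT
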