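import Pool.Agent.H580.GT.Tot

/-!
The deviation bound for the imbalance of two exchangeable patterns in self-avoiding walks on `ℤ^d`.
-/

set_option autoImplicit false

open scoped ENNReal

namespace Pool.Agent.H580.GT

open Pool.Agent.H986.GB

variable {d : ℕ}

/-- points of one class have disjoint windows -/
theorem exists_mod (Λ : Finset (V d)) : ∃ M : ℕ, 0 < M ∧ ∀ x y : V d,
    (∀ j, x j % (M : ℤ) = y j % (M : ℤ)) → x ≠ y →
    ∀ v ∈ win x Λ, v ∉ win y Λ := by
  obtain ⟨R, hR⟩ : ∃ R : ℕ, ∀ v ∈ Λ, ∀ j, |v j| ≤ R := by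
    refine ⟨∑ v ∈ Λ, ∑ j, (v j).natAbs, fun v hv j => ?_⟩
    have h := Finset.single_le_sum (f := fun v : V d => ∑ j, (v j).natAbs)
      (fun _ _ => Nat.zero_le _) hv
    have h' := Finset.single_le_sum (f := fun j => (v j).natAbs)
      (fun _ _ => Nat.zero_le _) (Finset.mem_univ j)
    rw [Int.abs_eq_natAbs]
    exact_mod_cast h'.trans h
  refine ⟨2 * R + 1, by omega, ?_⟩
  intro x y h1 hxy v hvx hvy
  apply hxy
  funext j
  have a1 := hR _ hvx j
  have a2 := hR _ hvy j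
  simp only [Pi.sub_apply, abs_le] at a1 a2
  have d1 : ((2 * R + 1 : ℕ) : ℤ) ∣ x j - y j := Int.ModEq.dvd (Int.ModEq.symm (h1 j))
  have e1 : x j - y j = 0 := by
    apply Int.eq_zero_of_abs_lt_dvd d1
    rw [abs_lt]
    push_cast
    constructor <;> omega
  omega

section

variable {Λ : Finset (V d)} {P P' : List (List (V d))}

theorem dv_neg (a b : ℕ) (r : ℝ) (w : V d → ℝ) (x : V d) (l : List (V d)) :
    dv a b Λ P P' r (fun x => -w x) x l = -dv a b Λ P P' r w x l := by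
  unfold dv
  ring

/-- the exponent -/
noncomputable def KK (mu : ℝ) : ℝ := 7 + |Real.log (1 / mu)| + |Real.log mu|

theorem KK_ge (mu : ℝ) : 7 ≤ KK mu := by
  unfold KK
  have := abs_nonneg (Real.log (1 / mu))
  have := abs_nonneg (Real.log mu)
  linarith

/-- the bound for one class and one sign -/
theorem one_class {mu : ℝ} (hmu : 0 < mu) (hlow : ∀ n, mu ^ n ≤ (C d n : ℝ))
    (hP : Pats Adj (↑Λ : Set (V d)) P P') (hne : P.flatten ≠ P'.flatten) :
    ∃ Q : ℝ, 0 < Q ∧ ∀ n : ℕ, 3 ≤ n → ∀ H G : ℝ, 1 ≤ H → G = Real.log (n * H) →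
      (∀ j ≤ n, (C d j : ℝ) ≤ H * mu ^ j) → G ≤ n → ∀ (a b : ℕ) (S : Finset (V d)),
      (∀ x ∈ S, ∀ y ∈ S, x ≠ y → ∀ v ∈ win x Λ, v ∉ win y Λ) →
      ∀ w : V d → ℝ, (∀ x, |w x| ≤ 1) → ∀ u : ℝ, 0 ≤ u → ∀ T : Finset (Fin (n + 1) → V d),
      (∀ ω ∈ T, IsSAW n ω ∧ u ≤ ∑ x ∈ S, dv a b Λ P P'
        ((Real.exp (-(2 * G / n)) / mu) ^ ((P'.flatten.length : ℤ) - P.flatten.length))
        w x (List.ofFn ω)) →
      (T.card : ℝ) ≤ C d n * Real.exp (KK mu * G - u ^ 2 / (Q * n)) := by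
  obtain ⟨K₀, hK₀⟩ : ∃ K₀ : ℝ, K₀ = 3 + |Real.log (1 / mu)| := ⟨_, rfl⟩
  have hK₀0 : 0 < K₀ := by rw [hK₀]; positivity
  obtain ⟨Δ, hΔ⟩ : ∃ Δ : ℤ, Δ = (P'.flatten.length : ℤ) - P.flatten.length := ⟨_, rfl⟩
  obtain ⟨ρ, hρ⟩ : ∃ ρ : ℝ, ρ = mu ^ (-Δ) := ⟨_, rfl⟩
  have hρ0 : 0 < ρ := by rw [hρ]; positivity
  obtain ⟨B, hB⟩ : ∃ B : ℝ, B = ρ * Real.exp (2 * |(Δ : ℝ)|) := ⟨_, rfl⟩
  have hB0 : 0 < B := by rw [hB]; positivity
  obtain ⟨D, hD⟩ : ∃ D : ℝ, D = |Real.log mu| := ⟨_, rfl⟩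
  have hD0 : 0 ≤ D := by rw [hD]; exact abs_nonneg _
  have hKK : KK mu = K₀ + 4 + D := by
    unfold KK
    rw [hK₀, hD]
    ring
  refine ⟨8 * (1 + B) ^ 2, by positivity,
    fun n hn H G hH hG hgr hGn a b S hS w hw u hu T hT => ?_⟩
  rw [hKK]
  rw [← hΔ] at hT
  have hn0 : (0 : ℝ) < n := by positivity
  have hn3 : (3 : ℝ) ≤ n := by exact_mod_cast hn
  have hnH : 0 < (n : ℝ) * H := by positivity
  have hG1 : 1 ≤ G := by
    rw [hG, Real.le_log_iff_exp_le hnH]
    have := Real.exp_one_lt_d9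
    nlinarith
  obtain ⟨z, hz⟩ : ∃ z : ℝ, z = Real.exp (-(2 * G / n)) / mu := ⟨_, rfl⟩
  have hz0 : 0 < z := by rw [hz]; positivity
  rw [← hz] at hT
  obtain ⟨r, hr⟩ : ∃ r : ℝ, r = z ^ Δ := ⟨_, rfl⟩
  have hr0 : 0 < r := by rw [hr]; positivity
  rw [← hr] at hT
  have hrB : r ≤ B := by
    have e : r = ρ * Real.exp (-(2 * G / n) * Δ) := by
      have e' : Real.exp (-(2 * G / (n : ℝ))) ^ Δ = Real.exp (-(2 * G / n) * Δ) := by
        rw [← Real.rpow_intCast, ← Real.exp_mul]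
      rw [hr, hz, div_zpow, e', hρ, zpow_neg]
      field_simp
    rw [e, hB]
    apply mul_le_mul_of_nonneg_left _ hρ0.le
    apply Real.exp_le_exp.2
    have h1 := neg_abs_le (Δ : ℝ)
    have h2 := abs_nonneg (Δ : ℝ)
    have h3 : G / n ≤ 1 := by rw [div_le_one hn0]; exact hGn
    have h4 : 0 ≤ G / n := by positivity
    have e2 : -(2 * G / (n : ℝ)) * Δ = 2 * (G / n) * (-Δ) := by ring
    rw [e2]
    nlinarith
  obtain ⟨lam, hlam⟩ : ∃ lam : ℝ, lam = u / (4 * (1 + B) ^ 2 * n) := ⟨_, rfl⟩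
  have hlam0 : 0 ≤ lam := by rw [hlam]; positivity
  have h1 := count_le (a := a) (b := b) hP hne hz0 (by rw [hr, hΔ]) S hS w hw hlam0 n u T
    (fun ω hω => ⟨(isW_ofFn ω).2 (hT ω hω).1, (hT ω hω).2⟩)
  have htot := total_le (d := d) hmu hn hH hG hgr
  rw [← hz] at htot
  have h2 := h1.trans htot
  rw [ENNReal.ofReal_le_ofReal_iff (Real.exp_pos _).le, ← hK₀] at h2
  -- the exponent
  have h3 : -(u ^ 2 / (8 * (1 + B) ^ 2 * n)) ≥
      -(lam * u - lam ^ 2 * (1 + r) ^ 2 * (n + 1 : ℕ)) := by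
    have h4 : (1 + r) ^ 2 * ((n + 1 : ℕ) : ℝ) ≤ (1 + B) ^ 2 * (2 * n) := by
      apply mul_le_mul (pow_le_pow_left₀ (by positivity) (by linarith) 2) _ (by positivity)
        (by positivity)
      push_cast
      linarith
    have h5 := mul_le_mul_of_nonneg_left h4 (sq_nonneg lam)
    have h6 : lam * u - lam ^ 2 * ((1 + B) ^ 2 * (2 * n)) = u ^ 2 / (8 * (1 + B) ^ 2 * n) := by
      rw [hlam]
      field_simp
      ring
    nlinarith
  have hCn := hlow n
  have hCpos : 0 < (C d n : ℝ) := lt_of_lt_of_le (by positivity) hCn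
  obtain ⟨E, hE⟩ : ∃ E : ℝ, E = Real.exp (((n + 1 : ℕ) : ℝ) * (2 * G / n)) := ⟨_, rfl⟩
  have hE0 : 0 < E := by rw [hE]; exact Real.exp_pos _
  have h7 : (T.card : ℝ) ≤ Real.exp (K₀ * G) * (mu ^ (n + 1) * E) *
      Real.exp (-(lam * u - lam ^ 2 * (1 + r) ^ 2 * (n + 1 : ℕ))) := by
    have e1 : z ^ (n + 1) = E⁻¹ / mu ^ (n + 1) := by
      rw [hz, div_pow, ← Real.exp_nat_mul, hE, ← Real.exp_neg]
      congr 2
      ring
    rw [e1] at h2
    have hE2 := Real.exp_pos (lam * u - lam ^ 2 * (1 + r) ^ 2 * (n + 1 : ℕ))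
    rw [Real.exp_neg]
    have h8 : (T.card : ℝ) * (E⁻¹ / mu ^ (n + 1) *
        Real.exp (lam * u - lam ^ 2 * (1 + r) ^ 2 * (n + 1 : ℕ))) =
        T.card * Real.exp (lam * u - lam ^ 2 * (1 + r) ^ 2 * (n + 1 : ℕ)) /
          (mu ^ (n + 1) * E) := by
      field_simp
    rw [h8, div_le_iff₀ (by positivity)] at h2
    rw [← div_eq_mul_inv, le_div_iff₀ hE2]
    exact h2
  have h9 : E ≤ Real.exp (4 * G) := by
    rw [hE]
    apply Real.exp_le_exp.2
    push_cast
    have e : ((n : ℝ) + 1) * (2 * G / n) = 2 * G + 2 * (G / n) := by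
      field_simp
    rw [e]
    have : G / n ≤ G := div_le_self (by linarith) (by linarith)
    linarith
  have h10 : mu ^ (n + 1) * E ≤ C d n * Real.exp ((4 + D) * G) := by
    have h11 : mu ≤ Real.exp (D * G) := by
      have h12 : mu = Real.exp (Real.log mu) := (Real.exp_log hmu).symm
      have h13 : Real.log mu ≤ D * G := by
        have := le_abs_self (Real.log mu)
        rw [← hD] at this
        nlinarith
      calc mu = Real.exp (Real.log mu) := h12
        _ ≤ _ := Real.exp_le_exp.2 h13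
    calc mu ^ (n + 1) * E = mu ^ n * (mu * E) := by ring
      _ ≤ C d n * (Real.exp (D * G) * Real.exp (4 * G)) := by
          apply mul_le_mul hCn _ (by positivity) hCpos.le
          exact mul_le_mul h11 h9 hE0.le (Real.exp_pos _).le
      _ = _ := by
          rw [← Real.exp_add]
          congr 2
          ring
  calc (T.card : ℝ) ≤ _ := h7
    _ ≤ Real.exp (K₀ * G) * (C d n * Real.exp ((4 + D) * G)) *
        Real.exp (-(u ^ 2 / (8 * (1 + B) ^ 2 * n))) := by
        apply mul_le_mul _ (Real.exp_le_exp.2 h3) (Real.exp_pos _).le (by positivity)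
        exact mul_le_mul_of_nonneg_left h10 (Real.exp_pos _).le
    _ = _ := by
        have e2 : (K₀ + 4 + D) * G - u ^ 2 / (8 * (1 + B) ^ 2 * n) =
            K₀ * G + (4 + D) * G + -(u ^ 2 / (8 * (1 + B) ^ 2 * n)) := by ring
        rw [e2, Real.exp_add, Real.exp_add]
        ring

open Classical in
/-- the imbalance of the two patterns in the list `l` of sites, with the weights `w` -/
noncomputable def imb (mu : ℝ) (a b : ℕ) (Λ : Finset (V d)) (P P' : List (List (V d)))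
    (w : V d → ℝ) (l : List (V d)) : ℝ :=
  ∑ᶠ x : V d, w x * ((if Occ a b (win x Λ) (sh x P') l then 1 else 0) -
    mu ^ ((P.flatten.length : ℤ) - P'.flatten.length) *
      (if Occ a b (win x Λ) (sh x P) l then 1 else 0))

theorem main {mu : ℝ} (hmu : 0 < mu) (hlow : ∀ n, mu ^ n ≤ (C d n : ℝ))
    (hP : Pats Adj (↑Λ : Set (V d)) P P') :
    ∃ Q : ℝ, 0 < Q ∧ ∀ n : ℕ, 3 ≤ n → ∀ H G : ℝ, 1 ≤ H → G = Real.log (n * H) →
      (∀ j ≤ n, (C d j : ℝ) ≤ H * mu ^ j) → ∀ a b : ℕ,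
      ∀ w : V d → ℝ, (∀ x, |w x| ≤ 1) → ∀ t : ℝ, 0 ≤ t →
      (({ω : Fin (n + 1) → V d | IsSAW n ω ∧
        t ≤ |imb mu a b Λ P P' w (List.ofFn ω)|}.ncard : ℕ) : ℝ) ≤
        C d n * Real.exp (KK mu * G - t ^ 2 / (Q * n)) := by
  classical
  obtain ⟨K, hK⟩ : ∃ K : ℝ, K = KK mu := ⟨_, rfl⟩
  have hK7 : 7 ≤ K := by rw [hK]; exact KK_ge mu
  have hK0 : 0 < K := by linarith
  rw [← hK]
  have hCpos : ∀ n : ℕ, 0 < (C d n : ℝ) := fun n => lt_of_lt_of_le (by positivity) (hlow n)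
  have hall : ∀ (n : ℕ) (E : Set (Fin (n + 1) → V d)), E ⊆ {ω | IsSAW n ω} →
      (E.ncard : ℝ) ≤ C d n := by
    intro n E hE
    have h1 := Set.ncard_le_ncard hE (saw_finite d n)
    rw [C_ncard] at h1
    exact_mod_cast h1
  have hGpos : ∀ (n : ℕ) (H G : ℝ), 3 ≤ n → 1 ≤ H → G = Real.log (n * H) → 1 ≤ G := by
    intro n H G hn hH hG
    have hn3 : (3 : ℝ) ≤ n := by exact_mod_cast hn
    rw [hG, Real.le_log_iff_exp_le (by positivity)]
    have := Real.exp_one_lt_d9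
    nlinarith
  by_cases hne : P.flatten = P'.flatten
  · -- the two patterns are equal
    have hPP : P = P' := eq_of_flatten (hP.ex.imp fun p p' h => ⟨h.1, h.2.1, h.2.2.2.1⟩) hne hP.nd
    subst hPP
    refine ⟨1, one_pos, fun n hn H G hH hG hgr a b w hw t ht => ?_⟩
    have hG1 := hGpos n H G hn hH hG
    have h0 : ∀ l, imb mu a b Λ P P w l = 0 := by
      intro l
      unfold imb
      rw [sub_self, zpow_zero]
      simp
    rcases eq_or_lt_of_le ht with h | h
    · refine (hall n _ fun ω hω => hω.1).trans ?_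
      rw [← h]
      have : 1 ≤ Real.exp (K * G - 0 ^ 2 / (1 * n)) := Real.one_le_exp (by
        simp
        nlinarith)
      have := mul_le_mul_of_nonneg_left this (hCpos n).le
      linarith
    · have : {ω : Fin (n + 1) → V d | IsSAW n ω ∧ t ≤ |imb mu a b Λ P P w (List.ofFn ω)|} = ∅ := by
        ext ω
        simp only [Set.mem_ofPred_eq, Set.mem_empty_iff_false, iff_false, not_and, not_le]
        intro _
        rw [h0, abs_zero]
        exact h
      rw [this, Set.ncard_empty, Nat.cast_zero]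
      have := hCpos n
      positivity
  obtain ⟨Q, hQ, hone⟩ := one_class hmu hlow hP hne
  rw [← hK] at hone
  obtain ⟨M, hM, hMd⟩ := exists_mod Λ
  obtain ⟨v₁, hv₁, hst⟩ := card_st hP hne
  obtain ⟨Δ, hΔ⟩ : ∃ Δ : ℤ, Δ = (P'.flatten.length : ℤ) - P.flatten.length := ⟨_, rfl⟩
  rw [← hΔ] at hone
  obtain ⟨ρ, hρ⟩ : ∃ ρ : ℝ, ρ = mu ^ (-Δ) := ⟨_, rfl⟩
  have hρ0 : 0 < ρ := by rw [hρ]; positivity
  obtain ⟨C₀, hC₀⟩ : ∃ C₀ : ℝ, C₀ = 4 * (ρ * (|(Δ : ℝ)| * Real.exp (2 * |(Δ : ℝ)|))) := ⟨_, rfl⟩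
  have hC₀0 : 0 ≤ C₀ := by rw [hC₀]; positivity
  have hM0 : (0 : ℝ) < M := by exact_mod_cast hM
  obtain ⟨J0, hJ0⟩ : ∃ J0 : ℝ, J0 = (M : ℝ) ^ d := ⟨_, rfl⟩
  have hJ00 : 0 < J0 := by rw [hJ0]; positivity
  obtain ⟨D, hD⟩ : ∃ D : ℝ, D = |Real.log (2 * J0)| := ⟨_, rfl⟩
  have hD0 : 0 ≤ D := by rw [hD]; exact abs_nonneg _
  obtain ⟨Q', hQ'⟩ : ∃ Q' : ℝ, Q' = 8 * J0 ^ 2 * Q * (1 + D) + 4 * C₀ ^ 2 + 4 * (1 + ρ) ^ 2 :=
    ⟨_, rfl⟩
  have hQ'0 : 0 < Q' := by rw [hQ']; positivity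
  have hQ'1 : 4 * C₀ ^ 2 ≤ Q' := by
    rw [hQ']
    have : 0 ≤ 8 * J0 ^ 2 * Q * (1 + D) := by positivity
    have : 0 ≤ 4 * (1 + ρ) ^ 2 := by positivity
    linarith
  have hQ'2 : 4 * (1 + ρ) ^ 2 ≤ Q' := by
    rw [hQ']
    have : 0 ≤ 8 * J0 ^ 2 * Q * (1 + D) := by positivity
    have : 0 ≤ 4 * C₀ ^ 2 := by positivity
    linarith
  have hQ'3 : 8 * J0 ^ 2 * Q * (1 + D) ≤ Q' := by
    rw [hQ']
    have : 0 ≤ 4 * C₀ ^ 2 := by positivity
    have : 0 ≤ 4 * (1 + ρ) ^ 2 := by positivity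
    linarith
  refine ⟨Q', hQ'0, fun n hn H G hH hG hgr a b w hw t ht => ?_⟩
  have hn0 : (0 : ℝ) < n := by positivity
  have hn3 : (3 : ℝ) ≤ n := by exact_mod_cast hn
  have hG1 := hGpos n H G hn hH hG
  have hG0 : 0 < G := by linarith
  obtain ⟨E, hE⟩ : ∃ E : Set (Fin (n + 1) → V d),
    E = {ω | IsSAW n ω ∧ t ≤ |imb mu a b Λ P P' w (List.ofFn ω)|} := ⟨_, rfl⟩
  rw [← hE]
  have htriv : t ^ 2 / (Q' * n) ≤ K * G → (E.ncard : ℝ) ≤
      C d n * Real.exp (K * G - t ^ 2 / (Q' * n)) := by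
    intro h
    refine (hall n _ fun ω hω => by rw [hE] at hω; exact hω.1).trans ?_
    have h4 : 1 ≤ Real.exp (K * G - t ^ 2 / (Q' * n)) := Real.one_le_exp (by linarith)
    have := mul_le_mul_of_nonneg_left h4 (hCpos n).le
    linarith
  obtain ⟨L, hL⟩ : ∃ L : ℕ, ∀ ω : Fin (n + 1) → V d, IsSAW n ω → ∀ x, x + v₁ ∈ List.ofFn ω →
      x ∈ Fintype.piFinset fun _ : Fin d => Finset.Icc (-(L : ℤ)) L := by
    refine ⟨n + ∑ j, (v₁ j).natAbs, fun ω hω x hx => ?_⟩
    rw [List.mem_ofFn] at hx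
    obtain ⟨i, hi⟩ := hx
    rw [Fintype.mem_piFinset]
    intro j
    have h1 := mem_box hω i j
    rw [hi] at h1
    have h2 := i.2
    have h3 := Finset.single_le_sum (f := fun j => (v₁ j).natAbs)
      (fun _ _ => Nat.zero_le _) (Finset.mem_univ j)
    simp only [Pi.add_apply, abs_le] at h1
    simp only [Finset.mem_Icc, Nat.cast_add]
    have h4 : |v₁ j| ≤ ((∑ j, (v₁ j).natAbs : ℕ) : ℤ) := by
      rw [Int.abs_eq_natAbs]
      exact_mod_cast h3
    rw [abs_le] at h4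
    constructor <;> omega
  obtain ⟨box, hbox⟩ : ∃ box : Finset (V d),
    box = Fintype.piFinset fun _ : Fin d => Finset.Icc (-(L : ℤ)) L := ⟨_, rfl⟩
  rw [← hbox] at hL
  have hsee : ∀ ω : Fin (n + 1) → V d, IsSAW n ω → ∀ x,
      (Occ a b (win x Λ) (sh x P) (List.ofFn ω) ↔ st a b Λ P P' x (List.ofFn ω) = 1) := by
    intro ω hω x
    rw [st_one]
    exact ⟨fun h => ⟨(isW_ofFn ω).2 hω, h⟩, fun h => h.2⟩
  have hsee' : ∀ ω : Fin (n + 1) → V d, IsSAW n ω → ∀ x,
      (Occ a b (win x Λ) (sh x P') (List.ofFn ω) ↔ st a b Λ P P' x (List.ofFn ω) = 2) := by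
    intro ω hω x
    rw [st_two hP hne]
    exact ⟨fun h => ⟨(isW_ofFn ω).2 hω, h⟩, fun h => h.2⟩
  have e1 : ∀ ω : Fin (n + 1) → V d, IsSAW n ω → imb mu a b Λ P P' w (List.ofFn ω) =
      ∑ x ∈ box, w x * ((if st a b Λ P P' x (List.ofFn ω) = 2 then 1 else 0) -
        ρ * (if st a b Λ P P' x (List.ofFn ω) = 1 then 1 else 0)) := by
    intro ω hω
    unfold imb
    have e2 : (P.flatten.length : ℤ) - P'.flatten.length = -Δ := by rw [hΔ]; ring
    simp only [hsee ω hω, hsee' ω hω, e2, ← hρ]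
    apply finsum_eq_sum_of_support_subset
    intro x hx
    rw [Function.mem_support] at hx
    by_contra hxb
    apply hx
    have h3 : st a b Λ P P' x (List.ofFn ω) = 0 := by
      by_contra h4
      exact hxb (by exact_mod_cast hL ω hω x (hst a b x _ h4))
    simp only [h3]
    norm_num
  have hcount : ∀ ω : Fin (n + 1) → V d, ((box.filter fun x =>
      st a b Λ P P' x (List.ofFn ω) ≠ 0).card : ℝ) ≤ (n + 1 : ℕ) := by
    intro ω
    have h7 : (box.filter fun x => st a b Λ P P' x (List.ofFn ω) ≠ 0).card ≤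
        (List.ofFn ω).toFinset.card := by
      apply Finset.card_le_card_of_injOn (fun x => x + v₁)
      · intro x hx
        simp only [Finset.coe_filter] at hx
        simpa using hst a b x _ hx.2
      · intro x _ y _ hxy
        exact add_left_injective v₁ hxy
    have h8 := h7.trans (List.toFinset_card_le _)
    rw [List.length_ofFn] at h8
    exact_mod_cast h8
  rcases lt_or_ge (n : ℝ) G with hGn | hGn
  · -- the bound is trivial if `G > n`
    have hdet : ∀ ω : Fin (n + 1) → V d, IsSAW n ω →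
        |imb mu a b Λ P P' w (List.ofFn ω)| ≤ (1 + ρ) * (n + 1 : ℕ) := by
      intro ω hω
      rw [e1 ω hω]
      refine (Finset.abs_sum_le_sum_abs _ _).trans ?_
      have h6 : ∀ x ∈ box, |w x * ((if st a b Λ P P' x (List.ofFn ω) = 2 then (1 : ℝ) else 0) -
          ρ * (if st a b Λ P P' x (List.ofFn ω) = 1 then 1 else 0))| ≤
          if st a b Λ P P' x (List.ofFn ω) ≠ 0 then (1 + ρ) else 0 := by
        intro x _
        rw [abs_mul]
        have hwx := hw x
        have hval : st a b Λ P P' x (List.ofFn ω) = 0 ∨ st a b Λ P P' x (List.ofFn ω) = 1 ∨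
            st a b Λ P P' x (List.ofFn ω) = 2 := by
          unfold st
          split_ifs <;> simp
        rcases hval with h | h | h
        · simp only [h]
          norm_num
        · simp only [h]
          norm_num
          rw [abs_of_pos hρ0]
          nlinarith [abs_nonneg (w x)]
        · simp only [h]
          norm_num
          linarith
      refine (Finset.sum_le_sum h6).trans ?_
      rw [← Finset.sum_filter, Finset.sum_const, nsmul_eq_mul, mul_comm]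
      exact mul_le_mul_of_nonneg_left (hcount ω) (by positivity)
    rcases le_or_gt t ((1 + ρ) * (n + 1 : ℕ)) with h | h
    · apply htriv
      have h1 : t ^ 2 ≤ ((1 + ρ) * (2 * n)) ^ 2 := by
        apply pow_le_pow_left₀ ht
        refine h.trans ?_
        apply mul_le_mul_of_nonneg_left _ (by positivity)
        push_cast
        linarith
      have h2 : t ^ 2 / (Q' * n) ≤ n := by
        rw [div_le_iff₀ (by positivity)]
        calc t ^ 2 ≤ ((1 + ρ) * (2 * n)) ^ 2 := h1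
          _ = 4 * (1 + ρ) ^ 2 * (n * n) := by ring
          _ ≤ Q' * (n * n) := mul_le_mul_of_nonneg_right hQ'2 (by positivity)
          _ = _ := by ring
      nlinarith
    · have : E = ∅ := by
        rw [hE]
        ext ω
        simp only [Set.mem_ofPred_eq, Set.mem_empty_iff_false, iff_false, not_and, not_le]
        intro hω
        exact lt_of_le_of_lt (hdet ω hω) h
      rw [this, Set.ncard_empty, Nat.cast_zero]
      have := hCpos n
      positivity
  rcases lt_or_ge t (2 * (C₀ * G)) with hsmall | hbig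
  · -- small deviations
    apply htriv
    have h2 : t ^ 2 ≤ 4 * C₀ ^ 2 * (G * n) := by
      have h3 : t ^ 2 ≤ (2 * (C₀ * G)) ^ 2 := pow_le_pow_left₀ ht hsmall.le 2
      have h4 : G * G ≤ G * n := mul_le_mul_of_nonneg_left hGn hG0.le
      nlinarith [sq_nonneg C₀, mul_le_mul_of_nonneg_left h4 (sq_nonneg C₀)]
    have h3 : t ^ 2 / (Q' * n) ≤ G := by
      rw [div_le_iff₀ (by positivity)]
      calc t ^ 2 ≤ 4 * C₀ ^ 2 * (G * n) := h2
        _ ≤ Q' * (G * n) := mul_le_mul_of_nonneg_right hQ'1 (by positivity)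
        _ = _ := by ring
    nlinarith
  -- large deviations
  obtain ⟨τ, hτ⟩ : ∃ τ : ℝ, τ = t ^ 2 / (Q' * n) := ⟨_, rfl⟩
  rcases le_or_gt τ (K * G) with hτ1 | hτ1
  · exact htriv (by rw [← hτ]; exact hτ1)
  obtain ⟨r, hr⟩ : ∃ r : ℝ, r = (Real.exp (-(2 * G / n)) / mu) ^ Δ := ⟨_, rfl⟩
  obtain ⟨J, hJ⟩ : ∃ J : Finset (V d),
    J = Fintype.piFinset fun _ : Fin d => Finset.Ico 0 (M : ℤ) := ⟨_, rfl⟩
  let S : V d → Finset (V d) := fun κ =>
    box.filter fun x => (fun j => x j % (M : ℤ)) = κ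
  have hSd : ∀ κ, ∀ x ∈ S κ, ∀ y ∈ S κ, x ≠ y → ∀ v ∈ win x Λ, v ∉ win y Λ := by
    intro κ x hx y hy hxy
    have h1 := (Finset.mem_filter.1 hx).2
    have h2 := (Finset.mem_filter.1 hy).2
    have h3 := h1.trans h2.symm
    exact hMd x y (fun j => congrFun h3 j) hxy
  have hsumS : ∀ f : V d → ℝ, ∑ κ ∈ J, ∑ x ∈ S κ, f x = ∑ x ∈ box, f x := by
    intro f
    apply Finset.sum_fiberwise_of_maps_to
    intro x _
    have hM' : (0 : ℤ) < M := by exact_mod_cast hM
    rw [hJ, Fintype.mem_piFinset]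
    intro j
    rw [Finset.mem_Ico]
    exact ⟨Int.emod_nonneg _ hM'.ne', Int.emod_lt_of_pos _ hM'⟩
  have hJcard : (J.card : ℝ) = J0 := by
    rw [hJ, Fintype.card_piFinset, hJ0]
    simp
  -- comparison of the imbalance with the centred sums
  have hcomp : ∀ ω : Fin (n + 1) → V d, IsSAW n ω →
      |imb mu a b Λ P P' w (List.ofFn ω)| ≤
        |∑ x ∈ box, dv a b Λ P P' r w x (List.ofFn ω)| + C₀ * G := by
    intro ω hω
    have e3 : imb mu a b Λ P P' w (List.ofFn ω) = ∑ x ∈ box, dv a b Λ P P' r w x (List.ofFn ω) +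
        (r - ρ) * ∑ x ∈ box, w x * (if st a b Λ P P' x (List.ofFn ω) = 1 then 1 else 0) := by
      rw [e1 ω hω, Finset.mul_sum, ← Finset.sum_add_distrib]
      refine Finset.sum_congr rfl fun x _ => ?_
      unfold dv
      ring
    have h5 : |∑ x ∈ box, w x * (if st a b Λ P P' x (List.ofFn ω) = 1 then (1 : ℝ) else 0)| ≤
        (n + 1 : ℕ) := by
      refine (Finset.abs_sum_le_sum_abs _ _).trans ?_
      have h6 : ∀ x ∈ box, |w x * (if st a b Λ P P' x (List.ofFn ω) = 1 then (1 : ℝ) else 0)| ≤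
          if st a b Λ P P' x (List.ofFn ω) ≠ 0 then 1 else 0 := by
        intro x _
        split_ifs with h7 h8 h8
        · rw [mul_one]; exact hw x
        · exact absurd h7 (by omega)
        · rw [mul_zero, abs_zero]; exact zero_le_one
        · rw [mul_zero, abs_zero]
      refine (Finset.sum_le_sum h6).trans ?_
      rw [← Finset.sum_filter, Finset.sum_const, nsmul_eq_mul, mul_one]
      exact hcount ω
    have h9 : |r - ρ| ≤ ρ * (|(Δ : ℝ)| * (2 * (G / n)) * Real.exp (2 * |(Δ : ℝ)|)) := by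
      have e' : Real.exp (-(2 * G / (n : ℝ))) ^ Δ = Real.exp (-(2 * G / n) * Δ) := by
        rw [← Real.rpow_intCast, ← Real.exp_mul]
      have e : r = ρ * Real.exp (-(2 * G / n) * Δ) := by
        rw [hr, div_zpow, e', hρ, zpow_neg]
        field_simp
      have e4 : r - ρ = ρ * (Real.exp (-(2 * G / n) * Δ) - 1) := by rw [e]; ring
      rw [e4, abs_mul, abs_of_pos hρ0]
      apply mul_le_mul_of_nonneg_left _ hρ0.le
      have hexp : ∀ x : ℝ, |Real.exp x - 1| ≤ |x| * Real.exp |x| := by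
        intro x
        rcases le_total 0 x with h | h
        · rw [abs_of_nonneg h, abs_of_nonneg (by linarith [Real.one_le_exp h])]
          have h1 := Real.add_one_le_exp (-x)
          have h2 : Real.exp (-x) * Real.exp x = 1 := by rw [← Real.exp_add]; simp
          have h3 := mul_le_mul_of_nonneg_right h1 (Real.exp_pos x).le
          nlinarith
        · rw [abs_of_nonpos h, abs_of_nonpos (by linarith [Real.exp_le_one_iff.2 h])]
          have h1 := Real.add_one_le_exp x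
          have h2 : 1 ≤ Real.exp (-x) := Real.one_le_exp (by linarith)
          nlinarith
      have e5 : |(-(2 * G / (n : ℝ)) * Δ)| = |(Δ : ℝ)| * (2 * (G / n)) := by
        rw [abs_mul, abs_neg, abs_of_nonneg (by positivity : (0 : ℝ) ≤ 2 * G / n)]
        ring
      refine (hexp _).trans ?_
      rw [e5]
      apply mul_le_mul_of_nonneg_left _ (by positivity)
      apply Real.exp_le_exp.2
      have h3 : G / n ≤ 1 := by rw [div_le_one hn0]; exact hGn
      nlinarith [abs_nonneg (Δ : ℝ)]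
    have h10 : |r - ρ| * ((n + 1 : ℕ) : ℝ) ≤ C₀ * G := by
      have h11 : ((n + 1 : ℕ) : ℝ) ≤ 2 * n := by push_cast; linarith
      calc |r - ρ| * ((n + 1 : ℕ) : ℝ) ≤
            ρ * (|(Δ : ℝ)| * (2 * (G / n)) * Real.exp (2 * |(Δ : ℝ)|)) * (2 * n) :=
            mul_le_mul h9 h11 (by positivity) (by positivity)
        _ = C₀ * G := by
            rw [hC₀]
            field_simp
            ring
    rw [e3]
    refine (abs_add_le _ _).trans (add_le_add le_rfl ?_)
    rw [abs_mul]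
    exact (mul_le_mul_of_nonneg_left h5 (abs_nonneg _)).trans h10
  -- union bound
  obtain ⟨u, hu⟩ : ∃ u : ℝ, u = t / 2 / J0 := ⟨_, rfl⟩
  have hu0 : 0 ≤ u := by rw [hu]; positivity
  let T : V d → (V d → ℝ) → Finset (Fin (n + 1) → V d) := fun κ w' =>
    (saw_finite d n).toFinset.filter fun ω => u ≤ ∑ x ∈ S κ, dv a b Λ P P' r w' x (List.ofFn ω)
  have hT : ∀ κ w', (∀ x, |w' x| ≤ 1) → ((T κ w').card : ℝ) ≤
      C d n * Real.exp (K * G - u ^ 2 / (Q * n)) := by
    intro κ w' hw'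
    refine hone n hn H G hH hG hgr hGn a b (S κ) (hSd κ) w' hw' u hu0 (T κ w') fun ω hω => ?_
    have h1 := Finset.mem_filter.1 hω
    rw [← hr]
    exact ⟨by simpa using h1.1, h1.2⟩
  have hsub : E ⊆ ↑(J.biUnion fun κ => T κ w ∪ T κ (fun x => -w x)) := by
    intro ω hω
    rw [hE] at hω
    obtain ⟨h1, h2⟩ := hω
    have h3 := hcomp ω h1
    have h4 : t / 2 ≤ |∑ x ∈ box, dv a b Λ P P' r w x (List.ofFn ω)| := by linarith
    rw [← hsumS] at h4
    have h5 := h4.trans (Finset.abs_sum_le_sum_abs _ _)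
    obtain ⟨κ, hκ, hκ'⟩ : ∃ κ ∈ J, u ≤ |∑ x ∈ S κ, dv a b Λ P P' r w x (List.ofFn ω)| := by
      by_contra hc
      push Not at hc
      have hJne : J.Nonempty := by
        rw [← Finset.card_pos]
        have : (0 : ℝ) < J.card := by rw [hJcard]; exact hJ00
        exact_mod_cast this
      have h6 := Finset.sum_lt_sum_of_nonempty hJne hc
      rw [Finset.sum_const, nsmul_eq_mul, hJcard, hu] at h6
      have : J0 * (t / 2 / J0) = t / 2 := by field_simp
      linarith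
    simp only [Finset.coe_biUnion, Set.mem_iUnion]
    refine ⟨κ, hκ, ?_⟩
    have hmem : ω ∈ (saw_finite d n).toFinset := by simpa using h1
    rcases le_abs.1 hκ' with h7 | h7
    · exact Finset.mem_coe.2 (Finset.mem_union_left _ (Finset.mem_filter.2 ⟨hmem, h7⟩))
    · refine Finset.mem_coe.2 (Finset.mem_union_right _ (Finset.mem_filter.2 ⟨hmem, ?_⟩))
      simp only [dv_neg, Finset.sum_neg_distrib]
      exact h7
  have hcard : (E.ncard : ℝ) ≤ J0 * (2 * (C d n *
      Real.exp (K * G - u ^ 2 / (Q * n)))) := by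
    have h1 := Set.ncard_le_ncard hsub (Finset.finite_toSet _)
    rw [Set.ncard_coe_finset] at h1
    have h2 : ((J.biUnion fun κ => T κ w ∪ T κ (fun x => -w x)).card : ℝ) ≤
        ∑ κ ∈ J, (((T κ w).card : ℝ) + ((T κ (fun x => -w x)).card : ℝ)) := by
      have h3 := Finset.card_biUnion_le (s := J) (t := fun κ => T κ w ∪ T κ (fun x => -w x))
      have h4 : ∑ κ ∈ J, (T κ w ∪ T κ (fun x => -w x)).card ≤
          ∑ κ ∈ J, ((T κ w).card + (T κ (fun x => -w x)).card) :=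
        Finset.sum_le_sum fun κ _ => Finset.card_union_le _ _
      exact_mod_cast h3.trans h4
    have h5 : ∑ κ ∈ J, (((T κ w).card : ℝ) + ((T κ (fun x => -w x)).card : ℝ)) ≤
        ∑ _κ ∈ J, (2 * (C d n * Real.exp (K * G - u ^ 2 / (Q * n)))) := by
      refine Finset.sum_le_sum fun κ _ => ?_
      have h6 := hT κ w hw
      have h7 := hT κ (fun x => -w x) (fun x => by rw [abs_neg]; exact hw x)
      linarith
    rw [Finset.sum_const, nsmul_eq_mul, hJcard] at h5
    have h8 : (E.ncard : ℝ) ≤ ((J.biUnion fun κ => T κ w ∪ T κ (fun x => -w x)).card : ℝ) := by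
      exact_mod_cast h1
    exact h8.trans (h2.trans h5)
  refine hcard.trans ?_
  rw [← hτ]
  have hu2 : 2 * (1 + D) * τ ≤ u ^ 2 / (Q * n) := by
    have e1 : u ^ 2 / (Q * n) = t ^ 2 / (4 * J0 ^ 2 * Q * n) := by
      rw [hu]
      field_simp
      ring
    rw [e1, hτ, le_div_iff₀ (by positivity)]
    have e2 : 2 * (1 + D) * (t ^ 2 / (Q' * n)) * (4 * J0 ^ 2 * Q * n) =
        (8 * J0 ^ 2 * Q * (1 + D)) * (t ^ 2 / Q') := by
      field_simp
      ring
    rw [e2]
    calc (8 * J0 ^ 2 * Q * (1 + D)) * (t ^ 2 / Q') ≤ Q' * (t ^ 2 / Q') :=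
          mul_le_mul_of_nonneg_right hQ'3 (by positivity)
      _ = t ^ 2 := by field_simp
  have hτ2 : 1 ≤ τ := by nlinarith
  have h12 : 2 * J0 ≤ Real.exp (D * τ) := by
    rw [← Real.log_le_iff_le_exp (by positivity)]
    have h13 := le_abs_self (Real.log (2 * J0))
    rw [← hD] at h13
    nlinarith
  calc J0 * (2 * (C d n * Real.exp (K * G - u ^ 2 / (Q * n))))
      = (2 * J0) * (C d n * Real.exp (K * G - u ^ 2 / (Q * n))) := by ring
    _ ≤ Real.exp (D * τ) * (C d n * Real.exp (K * G - u ^ 2 / (Q * n))) :=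
        mul_le_mul_of_nonneg_right h12 (by have := hCpos n; positivity)
    _ = C d n * Real.exp (D * τ + (K * G - u ^ 2 / (Q * n))) := by
        rw [Real.exp_add]
        ring
    _ ≤ _ := by
        apply mul_le_mul_of_nonneg_left _ (hCpos n).le
        apply Real.exp_le_exp.2
        nlinarith

end

end Pool.Agent.H580.GT
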