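import Pool.Agent.H580.GT.RelMain

/-!
Infinitely many lengths at which the imbalance is of order at most `√(n log n)`.
-/

set_option autoImplicit false

open scoped ENNReal

namespace Pool.Agent.H580.GT

open Pool.Agent.H986.GB

variable {d : ℕ}

/-- points where the sequence touches, up to a constant, its concave majorant -/
theorem touching {f : ℕ → ℝ} {B : ℝ} (hB : 0 ≤ B) (h0 : f 0 = 0) (hf : ∀ j, 0 ≤ f j)
    (hf' : ∀ j, f j ≤ B * √(j : ℝ)) :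
    ∃ h : ℝ, 0 ≤ h ∧ ∀ N : ℕ, ∃ n, N ≤ n ∧ ∃ s : ℝ, 0 ≤ s ∧ s * n ≤ B * √(n : ℝ) ∧
      ∀ j : ℕ, f j - s * j ≤ f n - s * n + h := by
  by_cases hb : ∃ M : ℝ, ∀ j, f j ≤ M
  · obtain ⟨M, hM⟩ := hb
    refine ⟨M, (hf 0).trans (hM 0), fun N => ⟨N, le_rfl, 0, le_rfl, ?_, fun j => ?_⟩⟩
    · rw [zero_mul]; positivity
    · rw [zero_mul, zero_mul, sub_zero, sub_zero]
      have := hM j
      have := hf N
      linarith
  · push Not at hb
    refine ⟨0, le_rfl, fun N => ?_⟩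
    obtain ⟨M0, hM0⟩ : ∃ M0 : ℝ, M0 = ∑ j ∈ Finset.range N, f j := ⟨_, rfl⟩
    have hM1 : ∀ j < N, f j ≤ M0 := by
      intro j hj
      rw [hM0]
      exact Finset.single_le_sum (fun i _ => hf i) (Finset.mem_range.2 hj)
    obtain ⟨j0, hj0⟩ := hb (M0 + 1)
    obtain ⟨s, hs⟩ : ∃ s : ℝ, s = 1 / ((j0 : ℝ) + 1) := ⟨_, rfl⟩
    have hj00 : (0 : ℝ) < (j0 : ℝ) + 1 := by positivity
    have hs0 : 0 < s := by rw [hs]; positivity
    have hsj : s * j0 ≤ 1 := by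
      rw [hs, one_div, inv_mul_le_iff₀ hj00]
      linarith
    obtain ⟨J, hJ⟩ := exists_nat_ge ((B / s) ^ 2)
    have hbig : ∀ j : ℕ, J ≤ j → f j - s * j ≤ 0 := by
      intro j hj
      have h1 : (B / s) ^ 2 ≤ (j : ℝ) := hJ.trans (by exact_mod_cast hj)
      have h2 : B / s ≤ √(j : ℝ) := Real.le_sqrt_of_sq_le h1
      have h3 : B ≤ s * √(j : ℝ) := by
        rw [div_le_iff₀ hs0] at h2
        linarith
      have h4 : B * √(j : ℝ) ≤ s * √(j : ℝ) * √(j : ℝ) :=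
        mul_le_mul_of_nonneg_right h3 (Real.sqrt_nonneg _)
      have h5 : s * √(j : ℝ) * √(j : ℝ) = s * j := by
        rw [mul_assoc, Real.mul_self_sqrt (Nat.cast_nonneg _)]
      have := hf' j
      linarith
    obtain ⟨n, -, hn⟩ := Finset.exists_max_image (Finset.range (J + 1)) (fun j => f j - s * (j : ℝ))
      ⟨0, Finset.mem_range.2 (by omega)⟩
    have hn0 : 0 ≤ f n - s * n := by
      have := hn 0 (Finset.mem_range.2 (by omega))
      simp only [h0, Nat.cast_zero, mul_zero, sub_zero] at this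
      exact this
    have hmax : ∀ j : ℕ, f j - s * j ≤ f n - s * n := by
      intro j
      rcases Nat.lt_or_ge j (J + 1) with h | h
      · exact hn j (Finset.mem_range.2 h)
      · exact (hbig j (by omega)).trans hn0
    refine ⟨n, ?_, s, hs0.le, ?_, fun j => ?_⟩
    · by_contra hlt
      push Not at hlt
      have h1 := hM1 n hlt
      have h2 := hmax j0
      have h3 : 0 ≤ s * n := by positivity
      linarith
    · have := hf' n
      linarith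
    · rw [add_zero]
      exact hmax j

theorem C_zero (d : ℕ) : C d 0 = 1 := by
  have h1 : C d 0 ≤ 1 := by
    unfold C
    rw [Finite.card_le_one_iff_subsingleton]
    refine ⟨fun ω ω' => Subtype.ext (funext fun i => ?_)⟩
    have : i = 0 := by
      apply Fin.ext
      have := i.2
      change (i : ℕ) = 0
      omega
    rw [this, ω.2.1, ω'.2.1]
  have h2 : 1 ≤ C d 0 := by
    unfold C
    have : Nonempty {ω : Fin (0 + 1) → V d // IsSAW 0 ω} := by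
      refine ⟨⟨fun _ => 0, rfl, ?_, fun i => i.elim0⟩⟩
      intro i k _
      apply Fin.ext
      have := i.2
      have := k.2
      omega
    exact Nat.one_le_iff_ne_zero.2 (Nat.card_ne_zero.2 ⟨this, inferInstance⟩)
  omega

theorem good_lengths {μ : ℝ} (hμ : 0 < μ) (hlow : ∀ n, μ ^ n ≤ (C d n : ℝ)) {B : ℝ} (hB : 0 ≤ B)
    (hup : ∀ n : ℕ, (C d n : ℝ) ≤ μ ^ n * Real.exp (B * √(n : ℝ))) :
    ∃ H : ℝ, 1 ≤ H ∧ ∀ N : ℕ, ∃ n, N ≤ n ∧ ∃ s : ℝ, 0 ≤ s ∧ s * n ≤ B * √(n : ℝ) ∧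
      ∀ j : ℕ, (C d j : ℝ) * (μ * Real.exp s) ^ n ≤ H * C d n * (μ * Real.exp s) ^ j := by
  have hC : ∀ j, (0 : ℝ) < C d j := fun j => lt_of_lt_of_le (pow_pos hμ j) (hlow j)
  obtain ⟨f, hf⟩ : ∃ f : ℕ → ℝ, f = fun j => Real.log (C d j) - j * Real.log μ := ⟨_, rfl⟩
  have hexp : ∀ j, (C d j : ℝ) = Real.exp (f j) * μ ^ j := by
    intro j
    rw [hf]
    simp only
    rw [Real.exp_sub, Real.exp_log (hC j), Real.exp_nat_mul, Real.exp_log hμ]
    field_simp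
  obtain ⟨h, h0, hh⟩ := touching (f := f) hB (by rw [hf]; simp [C_zero])
    (fun j => by
      rw [hf]
      simp only
      rw [sub_nonneg, ← Real.log_pow]
      exact Real.log_le_log (pow_pos hμ j) (hlow j))
    (fun j => by
      have h1 := hup j
      rw [hexp j, mul_comm] at h1
      have h2 := le_of_mul_le_mul_left h1 (pow_pos hμ j)
      exact Real.exp_le_exp.1 h2)
  refine ⟨Real.exp h, Real.one_le_exp h0, fun N => ?_⟩
  obtain ⟨n, hn, s, hs, hsn, hj⟩ := hh N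
  refine ⟨n, hn, s, hs, hsn, fun j => ?_⟩
  have h1 := hj j
  rw [hexp j, hexp n, mul_pow, mul_pow, ← Real.exp_nat_mul, ← Real.exp_nat_mul]
  have e1 : Real.exp (f j) * μ ^ j * (μ ^ n * Real.exp (n * s)) =
      μ ^ j * μ ^ n * Real.exp (f j + n * s) := by
    rw [Real.exp_add]
    ring
  have e2 : Real.exp h * (Real.exp (f n) * μ ^ n) * (μ ^ j * Real.exp (j * s)) =
      μ ^ j * μ ^ n * Real.exp (h + f n + j * s) := by
    rw [Real.exp_add, Real.exp_add]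
    ring
  rw [e1, e2]
  apply mul_le_mul_of_nonneg_left _ (by positivity)
  apply Real.exp_le_exp.2
  linarith

/-- **Infinitely many lengths with the diffusive order.** -/
theorem good_main {μ : ℝ} (hμ : 0 < μ) (hlow : ∀ n, μ ^ n ≤ (C d n : ℝ)) {B : ℝ} (hB : 0 ≤ B)
    (hup : ∀ n : ℕ, (C d n : ℝ) ≤ μ ^ n * Real.exp (B * √(n : ℝ))) :
    ∃ S : Set ℕ, S.Infinite ∧ ∀ (Λ : Finset (V d)) (P P' : List (List (V d))),
      Pats Adj (↑Λ : Set (V d)) P P' → ∃ Q : ℝ, 0 < Q ∧ ∀ n ∈ S, ∀ a b : ℕ,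
      ∀ w : V d → ℝ, (∀ x, |w x| ≤ 1) → ∀ t : ℝ, 0 ≤ t →
      (({ω : Fin (n + 1) → V d | IsSAW n ω ∧
        t ≤ |imb μ a b Λ P P' w (List.ofFn ω)|}.ncard : ℕ) : ℝ) ≤
        C d n * (Q * n) * Real.exp (-(t ^ 2 / (Q * n))) := by
  obtain ⟨H, hH, hgood⟩ := good_lengths hμ hlow hB hup
  refine ⟨{n | 1 ≤ n ∧ ∃ s : ℝ, 0 ≤ s ∧ s * n ≤ B * √(n : ℝ) ∧
      ∀ j : ℕ, (C d j : ℝ) * (μ * Real.exp s) ^ n ≤ H * C d n * (μ * Real.exp s) ^ j}, ?_, ?_⟩
  · rw [Set.infinite_iff_exists_gt]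
    intro N
    obtain ⟨n, hn, h⟩ := hgood (N + 1)
    exact ⟨n, ⟨by omega, h⟩, by omega⟩
  intro Λ P P' hP
  obtain ⟨Δ, hΔ⟩ : ∃ Δ : ℤ, Δ = (P'.flatten.length : ℤ) - P.flatten.length := ⟨_, rfl⟩
  obtain ⟨Q0, hQ03, hQ0⟩ := rel_main hP (L := |Real.log μ| + B) (by positivity)
  obtain ⟨C₁, hC₁⟩ : ∃ C₁ : ℝ,
    C₁ = 2 * (μ ^ (-Δ) * (|(Δ : ℝ)| * Real.exp (B * |(Δ : ℝ)|))) * B := ⟨_, rfl⟩
  have hC₁0 : 0 ≤ C₁ := by rw [hC₁]; positivity
  obtain ⟨Q, hQ⟩ : ∃ Q : ℝ, Q = 4 * Q0 * H + 4 * C₁ ^ 2 + 3 := ⟨_, rfl⟩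
  have hQ1 : 0 ≤ 4 * C₁ ^ 2 := by positivity
  have hQ2 : 4 * Q0 ≤ 4 * Q0 * H := by nlinarith
  have hQ3 : 3 ≤ Q := by rw [hQ]; linarith
  have hQ4 : 4 * Q0 ≤ Q := by rw [hQ]; linarith
  have hQ5 : Q0 * H ≤ Q := by rw [hQ]; nlinarith
  refine ⟨Q, by linarith, fun n hnS a b w hw t ht => ?_⟩
  obtain ⟨hn, s, hs, hsn, hgr⟩ := hnS
  have hn0 : (0 : ℝ) < n := by exact_mod_cast hn
  have hn1 : (1 : ℝ) ≤ n := by exact_mod_cast hn
  have hsq1 : 1 ≤ √(n : ℝ) := Real.one_le_sqrt.2 hn1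
  have hsq : √(n : ℝ) * √(n : ℝ) = n := Real.mul_self_sqrt hn0.le
  have hsB : s ≤ B := by
    have h1 : √(n : ℝ) ≤ n := by nlinarith
    have h2 : s * n ≤ B * n := hsn.trans (mul_le_mul_of_nonneg_left h1 hB)
    exact le_of_mul_le_mul_right h2 hn0
  obtain ⟨ν, hν⟩ : ∃ ν : ℝ, ν = μ * Real.exp s := ⟨_, rfl⟩
  have hν0 : 0 < ν := by rw [hν]; positivity
  have hlog : |Real.log ν| ≤ |Real.log μ| + B := by
    rw [hν, Real.log_mul hμ.ne' (Real.exp_pos _).ne', Real.log_exp]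
    refine (abs_add_le _ _).trans ?_
    rw [abs_of_nonneg hs]
    linarith
  have hmain := hQ0 ν hν0 hlog n hn H hH (fun j => by rw [hν]; exact hgr j) a b w hw
  have hall : (({ω : Fin (n + 1) → V d | IsSAW n ω ∧
        t ≤ |imb μ a b Λ P P' w (List.ofFn ω)|}.ncard : ℕ) : ℝ) ≤ C d n := by
    have h1 := Set.ncard_le_ncard (show {ω : Fin (n + 1) → V d | IsSAW n ω ∧
        t ≤ |imb μ a b Λ P P' w (List.ofFn ω)|} ⊆ {ω | IsSAW n ω} from fun ω hω => hω.1)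
        (saw_finite d n)
    rw [C_ncard] at h1
    exact_mod_cast h1
  have hdiff : |ν ^ (-Δ) - μ ^ (-Δ)| * ((n + 1 : ℕ) : ℝ) ≤ C₁ * √(n : ℝ) := by
    have e : ν ^ (-Δ) = μ ^ (-Δ) * Real.exp (s * (-Δ : ℤ)) := by
      rw [hν, mul_zpow, Real.exp_mul, Real.rpow_intCast]
    have e2 : ν ^ (-Δ) - μ ^ (-Δ) = μ ^ (-Δ) * (Real.exp (s * (-Δ : ℤ)) - 1) := by
      rw [e]; ring
    have hμΔ : 0 < μ ^ (-Δ) := zpow_pos hμ _
    have e3 : |s * ((-Δ : ℤ) : ℝ)| = s * |(Δ : ℝ)| := by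
      rw [abs_mul, abs_of_nonneg hs]
      push_cast
      rw [abs_neg]
    have h1 : |ν ^ (-Δ) - μ ^ (-Δ)| ≤ μ ^ (-Δ) * (s * |(Δ : ℝ)| * Real.exp (B * |(Δ : ℝ)|)) := by
      rw [e2, abs_mul, abs_of_pos hμΔ]
      apply mul_le_mul_of_nonneg_left _ hμΔ.le
      refine (abs_exp_sub _).trans ?_
      rw [e3]
      apply mul_le_mul_of_nonneg_left _ (by positivity)
      exact Real.exp_le_exp.2 (mul_le_mul_of_nonneg_right hsB (abs_nonneg _))
    have h2 : ((n + 1 : ℕ) : ℝ) ≤ 2 * n := by push_cast; linarith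
    calc |ν ^ (-Δ) - μ ^ (-Δ)| * ((n + 1 : ℕ) : ℝ) ≤
          μ ^ (-Δ) * (s * |(Δ : ℝ)| * Real.exp (B * |(Δ : ℝ)|)) * (2 * n) :=
          mul_le_mul h1 h2 (by positivity) (by positivity)
      _ = 2 * (μ ^ (-Δ) * (|(Δ : ℝ)| * Real.exp (B * |(Δ : ℝ)|))) * (s * n) := by ring
      _ ≤ 2 * (μ ^ (-Δ) * (|(Δ : ℝ)| * Real.exp (B * |(Δ : ℝ)|))) * (B * √(n : ℝ)) :=
          mul_le_mul_of_nonneg_left hsn (by positivity)
      _ = _ := by rw [hC₁]; ring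
  rcases lt_or_ge t (2 * (C₁ * √(n : ℝ))) with hsmall | hbig
  · have h3 : t ^ 2 ≤ Q * n := by
      have h4 : t ^ 2 ≤ (2 * (C₁ * √(n : ℝ))) ^ 2 := pow_le_pow_left₀ ht hsmall.le 2
      have h5 : (2 * (C₁ * √(n : ℝ))) ^ 2 = 4 * C₁ ^ 2 * n := by
        calc (2 * (C₁ * √(n : ℝ))) ^ 2 = 4 * C₁ ^ 2 * (√(n : ℝ) * √(n : ℝ)) := by ring
          _ = _ := by rw [hsq]
      rw [h5] at h4
      refine h4.trans (mul_le_mul_of_nonneg_right ?_ hn0.le)
      rw [hQ]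
      have : 0 ≤ 4 * Q0 * H := by nlinarith
      linarith
    have h1 : t ^ 2 / (Q * n) ≤ 1 := by
      rw [div_le_one (by nlinarith)]
      exact h3
    have h2 : Real.exp (-1) ≤ Real.exp (-(t ^ 2 / (Q * n))) := Real.exp_le_exp.2 (by linarith)
    have h4 : 1 ≤ 3 * Real.exp (-1) := by
      rw [Real.exp_neg, ← div_eq_mul_inv, one_le_div (Real.exp_pos _)]
      have := Real.exp_one_lt_d9
      linarith
    have hQn : 3 ≤ Q * n := by nlinarith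
    have h5 : 1 ≤ (Q * n) * Real.exp (-(t ^ 2 / (Q * n))) := by
      calc 1 ≤ 3 * Real.exp (-1) := h4
        _ ≤ _ := mul_le_mul hQn h2 (Real.exp_pos _).le (by linarith)
    calc _ ≤ (C d n : ℝ) := hall
      _ = C d n * 1 := (mul_one _).symm
      _ ≤ C d n * ((Q * n) * Real.exp (-(t ^ 2 / (Q * n)))) :=
          mul_le_mul_of_nonneg_left h5 (Nat.cast_nonneg _)
      _ = _ := by ring
  · have hsub : {ω : Fin (n + 1) → V d | IsSAW n ω ∧ t ≤ |imb μ a b Λ P P' w (List.ofFn ω)|} ⊆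
        {ω : Fin (n + 1) → V d | IsSAW n ω ∧ t / 2 ≤ |imb ν a b Λ P P' w (List.ofFn ω)|} := by
      intro ω hω
      refine ⟨hω.1, ?_⟩
      have h1 := imb_diff hP hΔ hω.1 a b μ ν w hw
      have h2 := hω.2
      linarith
    have hfin : {ω : Fin (n + 1) → V d | IsSAW n ω ∧
        t / 2 ≤ |imb ν a b Λ P P' w (List.ofFn ω)|}.Finite :=
      (saw_finite d n).subset fun ω hω => hω.1
    have h1 : (({ω : Fin (n + 1) → V d | IsSAW n ω ∧
        t ≤ |imb μ a b Λ P P' w (List.ofFn ω)|}.ncard : ℕ) : ℝ) ≤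
        (({ω : Fin (n + 1) → V d | IsSAW n ω ∧
        t / 2 ≤ |imb ν a b Λ P P' w (List.ofFn ω)|}.ncard : ℕ) : ℝ) := by
      exact_mod_cast Set.ncard_le_ncard hsub hfin
    have h2 := h1.trans (hmain (t / 2) (by linarith))
    refine h2.trans ?_
    have h3 : t ^ 2 / (Q * n) ≤ (t / 2) ^ 2 / (Q0 * n) := by
      have e : (t / 2) ^ 2 / (Q0 * n) = t ^ 2 / ((4 * Q0) * n) := by
        field_simp
        ring
      rw [e]
      apply div_le_div_of_nonneg_left (sq_nonneg _) (by nlinarith)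
      exact mul_le_mul_of_nonneg_right hQ4 hn0.le
    have h4 : Q0 * n * H ≤ Q * n := by
      calc Q0 * n * H = Q0 * H * n := by ring
        _ ≤ Q * n := mul_le_mul_of_nonneg_right hQ5 hn0.le
    apply mul_le_mul _ (Real.exp_le_exp.2 (by linarith)) (Real.exp_pos _).le
      (mul_nonneg (Nat.cast_nonneg _) (by nlinarith))
    exact mul_le_mul_of_nonneg_left h4 (Nat.cast_nonneg _)

end Pool.Agent.H580.GT
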