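import Pool.Agent.H580.GT.Good

/-!
Infinitely many lengths at which the imbalance is of order at most `√(n log n) + log (C n / μ^n)`, in all
dimensions and without any hypothesis.
-/

set_option autoImplicit false

open scoped ENNReal Topology
open Filter

namespace Pool.Agent.H580.GT

open Pool.Agent.H986.GB

variable {d : ℕ}

/-- points where the sequence touches, up to a constant, its concave majorant -/
theorem touching' {f : ℕ → ℝ} (h0 : f 0 = 0) (hf : ∀ j, 0 ≤ f j)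
    (hlim : Tendsto (fun j : ℕ => f j / j) atTop (𝓝 0)) :
    ∃ h : ℝ, 0 ≤ h ∧ ∀ N : ℕ, ∃ n, N ≤ n ∧ ∃ s : ℝ, 0 ≤ s ∧ s * n ≤ f n ∧
      ∀ j : ℕ, f j - s * j ≤ f n - s * n + h := by
  by_cases hb : ∃ M : ℝ, ∀ j, f j ≤ M
  · obtain ⟨M, hM⟩ := hb
    refine ⟨M, (hf 0).trans (hM 0), fun N => ⟨N, le_rfl, 0, le_rfl, ?_, fun j => ?_⟩⟩
    · rw [zero_mul]; exact hf N
    · rw [zero_mul, zero_mul, sub_zero, sub_zero]
      have := hM j
      have := hf N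
      linarith
  · push Not at hb
    refine ⟨0, le_rfl, fun N => ?_⟩
    obtain ⟨M0, hM0⟩ : ∃ M0 : ℝ, M0 = ∑ j ∈ Finset.range N, f j := ⟨_, rfl⟩
    have hM1 : ∀ j < N, f j ≤ M0 := by
      intro j hj
      rw [hM0]
      exact Finset.single_le_sum (fun i _ => hf i) (Finset.mem_range.2 hj)
    obtain ⟨j0, hj0⟩ := hb (M0 + 1)
    obtain ⟨s, hs⟩ : ∃ s : ℝ, s = 1 / ((j0 : ℝ) + 1) := ⟨_, rfl⟩
    have hj00 : (0 : ℝ) < (j0 : ℝ) + 1 := by positivity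
    have hs0 : 0 < s := by rw [hs]; positivity
    have hsj : s * j0 ≤ 1 := by
      rw [hs, one_div, inv_mul_le_iff₀ hj00]
      linarith
    obtain ⟨J, hJ⟩ := eventually_atTop.1 (hlim.eventually (gt_mem_nhds hs0))
    have hbig : ∀ j : ℕ, J + 1 ≤ j → f j - s * j ≤ 0 := by
      intro j hj
      have h1 := hJ j (by omega)
      have hj1 : (0 : ℝ) < j := by
        have : 0 < j := by omega
        exact_mod_cast this
      rw [div_lt_iff₀ hj1] at h1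
      linarith
    obtain ⟨n, -, hn⟩ := Finset.exists_max_image (Finset.range (J + 1)) (fun j => f j - s * (j : ℝ))
      ⟨0, Finset.mem_range.2 (by omega)⟩
    have hn0 : 0 ≤ f n - s * n := by
      have := hn 0 (Finset.mem_range.2 (by omega))
      simp only [h0, Nat.cast_zero, mul_zero, sub_zero] at this
      exact this
    have hmax : ∀ j : ℕ, f j - s * j ≤ f n - s * n := by
      intro j
      rcases Nat.lt_or_ge j (J + 1) with h | h
      · exact hn j (Finset.mem_range.2 h)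
      · exact (hbig j h).trans hn0
    refine ⟨n, ?_, s, hs0.le, by linarith, fun j => ?_⟩
    · by_contra hlt
      push Not at hlt
      have h1 := hM1 n hlt
      have h2 := hmax j0
      have h3 : 0 ≤ s * n := by positivity
      linarith
    · rw [add_zero]
      exact hmax j

theorem C_le_pow (d n : ℕ) : C d n ≤ C d 1 ^ n := by
  induction n with
  | zero => rw [C_zero, pow_zero]
  | succ n ih =>
    calc C d (n + 1) ≤ C d n * C d 1 := C_submul d n 1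
      _ ≤ C d 1 ^ n * C d 1 := Nat.mul_le_mul_right _ ih
      _ = _ := (pow_succ _ _).symm

theorem good_lengths' {μ : ℝ} (hμ : 0 < μ) (hlow : ∀ n, μ ^ n ≤ (C d n : ℝ))
    (hlim : Tendsto (fun n : ℕ => (C d n : ℝ) ^ (1 / (n : ℝ))) atTop (𝓝 μ)) :
    ∃ H : ℝ, 1 ≤ H ∧ ∀ N : ℕ, ∃ n, N ≤ n ∧ ∃ s : ℝ, 0 ≤ s ∧
      s * n ≤ Real.log (C d n / μ ^ n) ∧
      ∀ j : ℕ, (C d j : ℝ) * (μ * Real.exp s) ^ n ≤ H * C d n * (μ * Real.exp s) ^ j := by
  have hC : ∀ j, (0 : ℝ) < C d j := fun j => lt_of_lt_of_le (pow_pos hμ j) (hlow j)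
  obtain ⟨f, hf⟩ : ∃ f : ℕ → ℝ, f = fun j => Real.log (C d j / μ ^ j) := ⟨_, rfl⟩
  have hexp : ∀ j, (C d j : ℝ) = Real.exp (f j) * μ ^ j := by
    intro j
    rw [hf]
    simp only
    rw [Real.exp_log (div_pos (hC j) (pow_pos hμ j))]
    field_simp
  obtain ⟨h, h0, hh⟩ := touching' (f := f) (by rw [hf]; simp [C_zero])
    (fun j => by
      rw [hf]
      exact Real.log_nonneg ((one_le_div (pow_pos hμ j)).2 (hlow j)))
    (by
      have h1 : Tendsto (fun n : ℕ => Real.log ((C d n : ℝ) ^ (1 / (n : ℝ))) - Real.log μ) atTop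
          (𝓝 (Real.log μ - Real.log μ)) :=
        ((Real.continuousAt_log hμ.ne').tendsto.comp hlim).sub_const _
      rw [sub_self] at h1
      refine h1.congr' ?_
      filter_upwards [eventually_ge_atTop 1] with j hj
      have hj0 : (0 : ℝ) < j := by exact_mod_cast hj
      rw [hf]
      simp only
      rw [Real.log_rpow (hC j), Real.log_div (hC j).ne' (pow_pos hμ j).ne', Real.log_pow]
      field_simp)
  refine ⟨Real.exp h, Real.one_le_exp h0, fun N => ?_⟩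
  obtain ⟨n, hn, s, hs, hsn, hj⟩ := hh N
  refine ⟨n, hn, s, hs, by rw [hf] at hsn; exact hsn, fun j => ?_⟩
  have h1 := hj j
  rw [hexp j, hexp n, mul_pow, mul_pow, ← Real.exp_nat_mul, ← Real.exp_nat_mul]
  have e1 : Real.exp (f j) * μ ^ j * (μ ^ n * Real.exp (n * s)) =
      μ ^ j * μ ^ n * Real.exp (f j + n * s) := by
    rw [Real.exp_add]
    ring
  have e2 : Real.exp h * (Real.exp (f n) * μ ^ n) * (μ ^ j * Real.exp (j * s)) =
      μ ^ j * μ ^ n * Real.exp (h + f n + j * s) := by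
    rw [Real.exp_add, Real.exp_add]
    ring
  rw [e1, e2]
  apply mul_le_mul_of_nonneg_left _ (by positivity)
  apply Real.exp_le_exp.2
  linarith

/-- **Infinitely many lengths, all dimensions.** -/
theorem good_main' {μ : ℝ} (hμ : 0 < μ) (hlow : ∀ n, μ ^ n ≤ (C d n : ℝ))
    (hlim : Tendsto (fun n : ℕ => (C d n : ℝ) ^ (1 / (n : ℝ))) atTop (𝓝 μ)) :
    ∃ S : Set ℕ, S.Infinite ∧ ∀ (Λ : Finset (V d)) (P P' : List (List (V d))),
      Pats Adj (↑Λ : Set (V d)) P P' → ∃ Q : ℝ, 0 < Q ∧ ∀ n ∈ S, ∀ a b : ℕ,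
      ∀ w : V d → ℝ, (∀ x, |w x| ≤ 1) → ∀ t : ℝ, 0 ≤ t →
      (({ω : Fin (n + 1) → V d | IsSAW n ω ∧ Q * Real.log (C d n / μ ^ n) + t ≤
        |imb μ a b Λ P P' w (List.ofFn ω)|}.ncard : ℕ) : ℝ) ≤
        C d n * (Q * n) * Real.exp (-(t ^ 2 / (Q * n))) := by
  obtain ⟨H, hH, hgood⟩ := good_lengths' hμ hlow hlim
  refine ⟨{n | 1 ≤ n ∧ ∃ s : ℝ, 0 ≤ s ∧ s * n ≤ Real.log (C d n / μ ^ n) ∧
      ∀ j : ℕ, (C d j : ℝ) * (μ * Real.exp s) ^ n ≤ H * C d n * (μ * Real.exp s) ^ j}, ?_, ?_⟩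
  · rw [Set.infinite_iff_exists_gt]
    intro N
    obtain ⟨n, hn, h⟩ := hgood (N + 1)
    exact ⟨n, ⟨by omega, h⟩, by omega⟩
  intro Λ P P' hP
  have hC : ∀ j, (0 : ℝ) < C d j := fun j => lt_of_lt_of_le (pow_pos hμ j) (hlow j)
  obtain ⟨B, hB⟩ : ∃ B : ℝ, B = Real.log (C d 1 / μ) := ⟨_, rfl⟩
  have hB0 : 0 ≤ B := by
    rw [hB]
    apply Real.log_nonneg
    rw [one_le_div hμ]
    simpa using hlow 1
  obtain ⟨Δ, hΔ⟩ : ∃ Δ : ℤ, Δ = (P'.flatten.length : ℤ) - P.flatten.length := ⟨_, rfl⟩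
  obtain ⟨Q0, hQ03, hQ0⟩ := rel_main hP (L := |Real.log μ| + B) (by positivity)
  obtain ⟨C₁, hC₁⟩ : ∃ C₁ : ℝ,
    C₁ = 2 * (μ ^ (-Δ) * (|(Δ : ℝ)| * Real.exp (B * |(Δ : ℝ)|))) := ⟨_, rfl⟩
  have hC₁0 : 0 ≤ C₁ := by rw [hC₁]; positivity
  obtain ⟨Q, hQ⟩ : ∃ Q : ℝ, Q = Q0 * H + C₁ := ⟨_, rfl⟩
  have hQ2 : Q0 ≤ Q0 * H := by nlinarith
  have hQ4 : Q0 ≤ Q := by rw [hQ]; linarith
  have hQ5 : Q0 * H ≤ Q := by rw [hQ]; linarith
  have hQ6 : C₁ ≤ Q := by rw [hQ]; linarith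
  refine ⟨Q, by linarith, fun n hnS a b w hw t ht => ?_⟩
  obtain ⟨hn, s, hs, hsn, hgr⟩ := hnS
  have hn0 : (0 : ℝ) < n := by exact_mod_cast hn
  have hfB : Real.log (C d n / μ ^ n) ≤ B * n := by
    have h1 : (C d n : ℝ) / μ ^ n ≤ (C d 1 / μ) ^ n := by
      rw [div_pow]
      apply div_le_div_of_nonneg_right _ (pow_pos hμ n).le
      exact_mod_cast C_le_pow d n
    calc Real.log (C d n / μ ^ n) ≤ Real.log ((C d 1 / μ) ^ n) :=
          Real.log_le_log (div_pos (hC n) (pow_pos hμ n)) h1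
      _ = B * n := by rw [Real.log_pow, hB]; ring
  have hsB : s ≤ B := le_of_mul_le_mul_right (hsn.trans hfB) hn0
  obtain ⟨ν, hν⟩ : ∃ ν : ℝ, ν = μ * Real.exp s := ⟨_, rfl⟩
  have hν0 : 0 < ν := by rw [hν]; positivity
  have hlog : |Real.log ν| ≤ |Real.log μ| + B := by
    rw [hν, Real.log_mul hμ.ne' (Real.exp_pos _).ne', Real.log_exp]
    refine (abs_add_le _ _).trans ?_
    rw [abs_of_nonneg hs]
    linarith
  have hmain := hQ0 ν hν0 hlog n hn H hH (fun j => by rw [hν]; exact hgr j) a b w hw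
  have hdiff : |ν ^ (-Δ) - μ ^ (-Δ)| * ((n + 1 : ℕ) : ℝ) ≤
      C₁ * Real.log (C d n / μ ^ n) := by
    have e : ν ^ (-Δ) = μ ^ (-Δ) * Real.exp (s * (-Δ : ℤ)) := by
      rw [hν, mul_zpow, Real.exp_mul, Real.rpow_intCast]
    have e2 : ν ^ (-Δ) - μ ^ (-Δ) = μ ^ (-Δ) * (Real.exp (s * (-Δ : ℤ)) - 1) := by
      rw [e]; ring
    have hμΔ : 0 < μ ^ (-Δ) := zpow_pos hμ _
    have e3 : |s * ((-Δ : ℤ) : ℝ)| = s * |(Δ : ℝ)| := by
      rw [abs_mul, abs_of_nonneg hs]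
      push_cast
      rw [abs_neg]
    have h1 : |ν ^ (-Δ) - μ ^ (-Δ)| ≤ μ ^ (-Δ) * (s * |(Δ : ℝ)| * Real.exp (B * |(Δ : ℝ)|)) := by
      rw [e2, abs_mul, abs_of_pos hμΔ]
      apply mul_le_mul_of_nonneg_left _ hμΔ.le
      refine (abs_exp_sub _).trans ?_
      rw [e3]
      apply mul_le_mul_of_nonneg_left _ (by positivity)
      exact Real.exp_le_exp.2 (mul_le_mul_of_nonneg_right hsB (abs_nonneg _))
    have hn1 : (1 : ℝ) ≤ n := by exact_mod_cast hn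
    have h2 : ((n + 1 : ℕ) : ℝ) ≤ 2 * n := by push_cast; linarith
    calc |ν ^ (-Δ) - μ ^ (-Δ)| * ((n + 1 : ℕ) : ℝ) ≤
          μ ^ (-Δ) * (s * |(Δ : ℝ)| * Real.exp (B * |(Δ : ℝ)|)) * (2 * n) :=
          mul_le_mul h1 h2 (by positivity) (by positivity)
      _ = 2 * (μ ^ (-Δ) * (|(Δ : ℝ)| * Real.exp (B * |(Δ : ℝ)|))) * (s * n) := by ring
      _ ≤ 2 * (μ ^ (-Δ) * (|(Δ : ℝ)| * Real.exp (B * |(Δ : ℝ)|))) *
            Real.log (C d n / μ ^ n) :=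
          mul_le_mul_of_nonneg_left hsn (by positivity)
      _ = _ := by rw [hC₁]
  have hf0 : 0 ≤ Real.log (C d n / μ ^ n) :=
    Real.log_nonneg ((one_le_div (pow_pos hμ n)).2 (hlow n))
  have hsub : {ω : Fin (n + 1) → V d | IsSAW n ω ∧ Q * Real.log (C d n / μ ^ n) + t ≤
      |imb μ a b Λ P P' w (List.ofFn ω)|} ⊆
      {ω : Fin (n + 1) → V d | IsSAW n ω ∧ t ≤ |imb ν a b Λ P P' w (List.ofFn ω)|} := by
    intro ω hω
    refine ⟨hω.1, ?_⟩
    have h1 := imb_diff hP hΔ hω.1 a b μ ν w hw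
    have h2 := hω.2
    have h3 := mul_le_mul_of_nonneg_right hQ6 hf0
    linarith
  have hfin : {ω : Fin (n + 1) → V d | IsSAW n ω ∧
      t ≤ |imb ν a b Λ P P' w (List.ofFn ω)|}.Finite :=
    (saw_finite d n).subset fun ω hω => hω.1
  have h1 : (({ω : Fin (n + 1) → V d | IsSAW n ω ∧ Q * Real.log (C d n / μ ^ n) + t ≤
      |imb μ a b Λ P P' w (List.ofFn ω)|}.ncard : ℕ) : ℝ) ≤
      (({ω : Fin (n + 1) → V d | IsSAW n ω ∧
      t ≤ |imb ν a b Λ P P' w (List.ofFn ω)|}.ncard : ℕ) : ℝ) := by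
    exact_mod_cast Set.ncard_le_ncard hsub hfin
  have h2 := h1.trans (hmain t ht)
  refine h2.trans ?_
  have h3 : t ^ 2 / (Q * n) ≤ t ^ 2 / (Q0 * n) := by
    apply div_le_div_of_nonneg_left (sq_nonneg _) (by nlinarith)
    exact mul_le_mul_of_nonneg_right hQ4 hn0.le
  have h4 : Q0 * n * H ≤ Q * n := by
    calc Q0 * n * H = Q0 * H * n := by ring
      _ ≤ Q * n := mul_le_mul_of_nonneg_right hQ5 hn0.le
  apply mul_le_mul _ (Real.exp_le_exp.2 (by linarith)) (Real.exp_pos _).le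
    (mul_nonneg (Nat.cast_nonneg _) (by nlinarith))
  exact mul_le_mul_of_nonneg_left h4 (Nat.cast_nonneg _)

end Pool.Agent.H580.GT
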