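import Pool.Agent.H580.GT.Fin

/-!
The deviation bound relative to `C n`: if `C j ≤ H (C n) ν^(j - n)` for all `j`, then the imbalance at the
fugacity `1/ν` is of order `√(n log (n H))`.
-/

set_option autoImplicit false

open scoped ENNReal

namespace Pool.Agent.H580.GT

open Pool.Agent.H986.GB

variable {d : ℕ}

/-- the total weight at `z = exp (-1/n) / ν` -/
theorem rel_total {ν : ℝ} (hν : 0 < ν) {n : ℕ} (hn : 1 ≤ n) {H : ℝ} (hH : 1 ≤ H)
    (h : ∀ j, (C d j : ℝ) * ν ^ n ≤ H * C d n * ν ^ j) :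
    ∑' l : List (V d), Wt (Real.exp (-(1 / n)) / ν) l ≤
      ENNReal.ofReal (H * C d n * n / ν ^ (n + 1)) := by
  have hn0 : (0 : ℝ) < n := by exact_mod_cast hn
  obtain ⟨q, hq⟩ : ∃ q : ℝ, q = Real.exp (-(1 / (n : ℝ))) := ⟨_, rfl⟩
  have hq0 : 0 < q := by rw [hq]; exact Real.exp_pos _
  have hx0 : 0 < 1 / (n : ℝ) := by positivity
  have hq1 : q < 1 := by
    rw [hq]
    have h := Real.exp_lt_exp.2 (show -(1 / (n : ℝ)) < 0 by linarith)
    rwa [Real.exp_zero] at h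
  rw [← hq, total (div_pos hq0 hν)]
  obtain ⟨A, hA⟩ : ∃ A : ℝ, A = H * C d n / ν ^ (n + 1) := ⟨_, rfl⟩
  have hA0 : 0 ≤ A := by rw [hA]; positivity
  have hterm : ∀ m : ℕ, (C d m : ℝ) * (q / ν) ^ (m + 1) ≤ A * q * q ^ m := by
    intro m
    have h1 := h m
    have e1 : (C d m : ℝ) * (q / ν) ^ (m + 1) =
        ((C d m : ℝ) * ν ^ n) * (q ^ (m + 1) / (ν ^ (m + 1) * ν ^ n)) := by
      rw [div_pow]
      field_simp
    have e2 : A * q * q ^ m = (H * C d n * ν ^ m) * (q ^ (m + 1) / (ν ^ (m + 1) * ν ^ n)) := by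
      rw [hA, pow_succ q m, pow_succ ν m, pow_succ ν n]
      field_simp
    rw [e1, e2]
    exact mul_le_mul_of_nonneg_right h1 (by positivity)
  have hsum : Summable fun m : ℕ => A * q * q ^ m :=
    (summable_geometric_of_lt_one hq0.le hq1).mul_left _
  calc ∑' m : ℕ, ENNReal.ofReal (C d m * (q / ν) ^ (m + 1))
      ≤ ∑' m : ℕ, ENNReal.ofReal (A * q * q ^ m) :=
        ENNReal.tsum_le_tsum fun m => ENNReal.ofReal_le_ofReal (hterm m)
    _ = ENNReal.ofReal (∑' m : ℕ, A * q * q ^ m) :=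
        (ENNReal.ofReal_tsum_of_nonneg (fun m => by positivity) hsum).symm
    _ ≤ _ := ?_
  apply ENNReal.ofReal_le_ofReal
  rw [tsum_mul_left, tsum_geometric_of_lt_one hq0.le hq1]
  have hgeo : q * (1 - q)⁻¹ ≤ n := by
    rw [← div_eq_mul_inv, div_le_iff₀ (by linarith)]
    have h6 := Real.add_one_le_exp (1 / (n : ℝ))
    have h7 : q * Real.exp (1 / (n : ℝ)) = 1 := by
      rw [hq, ← Real.exp_add]
      simp
    have h8 : q * (1 / (n : ℝ) + 1) ≤ 1 := by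
      calc q * (1 / (n : ℝ) + 1) ≤ q * Real.exp (1 / (n : ℝ)) :=
            mul_le_mul_of_nonneg_left h6 hq0.le
        _ = 1 := h7
    have h9 : q * (1 / (n : ℝ) + 1) * n ≤ 1 * n := mul_le_mul_of_nonneg_right h8 hn0.le
    have h10 : q * (1 / (n : ℝ) + 1) * n = q + q * n := by
      field_simp
    nlinarith
  calc A * q * (1 - q)⁻¹ = A * (q * (1 - q)⁻¹) := by ring
    _ ≤ A * n := mul_le_mul_of_nonneg_left hgeo hA0
    _ = _ := by
        rw [hA]
        ring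

section

variable {Λ : Finset (V d)} {P P' : List (List (V d))}

/-- the bound for one class and one sign -/
theorem rel_class {ν L : ℝ} (hν : 0 < ν) (hL : |Real.log ν| ≤ L)
    (hP : Pats Adj (↑Λ : Set (V d)) P P') (hne : P.flatten ≠ P'.flatten)
    {Δ : ℤ} (hΔ : Δ = (P'.flatten.length : ℤ) - P.flatten.length)
    {B : ℝ} (hB : B = Real.exp (|(Δ : ℝ)| * (L + 1)))
    {n : ℕ} (hn : 1 ≤ n) {H : ℝ} (hH : 1 ≤ H)
    (h : ∀ j, (C d j : ℝ) * ν ^ n ≤ H * C d n * ν ^ j) (a b : ℕ) (S : Finset (V d))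
    (hS : ∀ x ∈ S, ∀ y ∈ S, x ≠ y → ∀ v ∈ win x Λ, v ∉ win y Λ)
    (w : V d → ℝ) (hw : ∀ x, |w x| ≤ 1) (u : ℝ) (hu : 0 ≤ u) (T : Finset (Fin (n + 1) → V d))
    (hT : ∀ ω ∈ T, IsSAW n ω ∧ u ≤ ∑ x ∈ S, dv a b Λ P P'
        ((Real.exp (-(1 / n)) / ν) ^ Δ) w x (List.ofFn ω)) :
    (T.card : ℝ) ≤ C d n * (8 * n * H) * Real.exp (-(u ^ 2 / (8 * (1 + B) ^ 2 * n))) := by
  have hn0 : (0 : ℝ) < n := by exact_mod_cast hn
  have hn1 : (1 : ℝ) ≤ n := by exact_mod_cast hn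
  have hL0 : 0 ≤ L := (abs_nonneg _).trans hL
  have hB0 : 0 < B := by rw [hB]; exact Real.exp_pos _
  obtain ⟨z, hz⟩ : ∃ z : ℝ, z = Real.exp (-(1 / n)) / ν := ⟨_, rfl⟩
  have hz0 : 0 < z := by rw [hz]; positivity
  rw [← hz] at hT
  obtain ⟨r, hr⟩ : ∃ r : ℝ, r = z ^ Δ := ⟨_, rfl⟩
  have hr0 : 0 < r := by rw [hr]; positivity
  rw [← hr] at hT
  have hlogz : |Real.log z| ≤ L + 1 := by
    have e : Real.log z = -(1 / (n : ℝ)) + -Real.log ν := by
      rw [hz, Real.log_div (Real.exp_pos _).ne' hν.ne', Real.log_exp]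
      ring
    rw [e]
    refine (abs_add_le _ _).trans ?_
    rw [abs_neg, abs_neg, abs_of_nonneg (by positivity : (0 : ℝ) ≤ 1 / (n : ℝ))]
    have : 1 / (n : ℝ) ≤ 1 := by
      rw [div_le_one hn0]
      exact hn1
    linarith
  have hrB : r ≤ B := by
    have e : r = Real.exp (Real.log z * Δ) := by
      rw [hr, Real.exp_mul, Real.exp_log hz0, Real.rpow_intCast]
    rw [e, hB]
    apply Real.exp_le_exp.2
    refine (le_abs_self _).trans ?_
    rw [abs_mul, mul_comm]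
    exact mul_le_mul_of_nonneg_left hlogz (abs_nonneg _)
  obtain ⟨lam, hlam⟩ : ∃ lam : ℝ, lam = u / (4 * (1 + B) ^ 2 * n) := ⟨_, rfl⟩
  have hlam0 : 0 ≤ lam := by rw [hlam]; positivity
  have h1 := count_le (a := a) (b := b) hP hne hz0 (by rw [hr, hΔ]) S hS w hw hlam0 n u T
    (fun ω hω => ⟨(isW_ofFn ω).2 (hT ω hω).1, (hT ω hω).2⟩)
  have htot := rel_total hν hn hH h
  rw [← hz] at htot
  have h2 := h1.trans htot
  rw [ENNReal.ofReal_le_ofReal_iff (by positivity)] at h2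
  have h3 : -(u ^ 2 / (8 * (1 + B) ^ 2 * n)) ≥
      -(lam * u - lam ^ 2 * (1 + r) ^ 2 * (n + 1 : ℕ)) := by
    have h4 : (1 + r) ^ 2 * ((n + 1 : ℕ) : ℝ) ≤ (1 + B) ^ 2 * (2 * n) := by
      apply mul_le_mul (pow_le_pow_left₀ (by positivity) (by linarith) 2) _ (by positivity)
        (by positivity)
      push_cast
      linarith
    have h5 := mul_le_mul_of_nonneg_left h4 (sq_nonneg lam)
    have h6 : lam * u - lam ^ 2 * ((1 + B) ^ 2 * (2 * n)) = u ^ 2 / (8 * (1 + B) ^ 2 * n) := by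
      rw [hlam]
      field_simp
      ring
    nlinarith
  obtain ⟨E, hE⟩ : ∃ E : ℝ, E = Real.exp (((n + 1 : ℕ) : ℝ) * (1 / n)) := ⟨_, rfl⟩
  have hE0 : 0 < E := by rw [hE]; exact Real.exp_pos _
  have hE8 : E ≤ 8 := by
    have e : ((n + 1 : ℕ) : ℝ) * (1 / n) = 1 + 1 / n := by
      push_cast
      field_simp
    have h4 : 1 / (n : ℝ) ≤ 1 := by
      rw [div_le_one hn0]
      exact hn1
    calc E ≤ Real.exp 2 := by
          rw [hE, e]
          exact Real.exp_le_exp.2 (by linarith)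
      _ = Real.exp 1 * Real.exp 1 := by rw [← Real.exp_add]; norm_num
      _ ≤ 8 := by
          have := Real.exp_one_lt_d9
          have := Real.exp_pos 1
          nlinarith
  obtain ⟨X, hX⟩ : ∃ X : ℝ, X = lam * u - lam ^ 2 * (1 + r) ^ 2 * (n + 1 : ℕ) := ⟨_, rfl⟩
  rw [← hX] at h2 h3
  have h7 : (T.card : ℝ) ≤ H * C d n * n * E * Real.exp (-X) := by
    have e1 : z ^ (n + 1) = E⁻¹ / ν ^ (n + 1) := by
      rw [hz, div_pow, ← Real.exp_nat_mul, hE, ← Real.exp_neg]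
      congr 2
      ring
    rw [e1] at h2
    have h8 : (T.card : ℝ) * (E⁻¹ / ν ^ (n + 1) * Real.exp X) =
        T.card * Real.exp X / E / ν ^ (n + 1) := by
      field_simp
    rw [h8, div_le_div_iff_of_pos_right (by positivity), div_le_iff₀ hE0] at h2
    rw [Real.exp_neg, ← div_eq_mul_inv, le_div_iff₀ (Real.exp_pos _)]
    exact h2
  calc (T.card : ℝ) ≤ H * C d n * n * E * Real.exp (-X) := h7
    _ ≤ H * C d n * n * 8 * Real.exp (-(u ^ 2 / (8 * (1 + B) ^ 2 * n))) := by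
        apply mul_le_mul _ (Real.exp_le_exp.2 h3) (Real.exp_pos _).le (by positivity)
        exact mul_le_mul_of_nonneg_left hE8 (by positivity)
    _ = _ := by ring

end

end Pool.Agent.H580.GT
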