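import Pool.Agent.H580.GT.Rel

/-!
The deviation bound for the imbalance at the fugacity `1/ν`, if `C j ≤ H (C n) ν^(j - n)` for all `j`,
and the comparison of the imbalances at two fugacities.
-/

set_option autoImplicit false

open scoped ENNReal

namespace Pool.Agent.H580.GT

open Pool.Agent.H986.GB

variable {d : ℕ} {Λ : Finset (V d)} {P P' : List (List (V d))}

open Classical in
theorem imb_box (hP : Pats Adj (↑Λ : Set (V d)) P P') (hne : P.flatten ≠ P'.flatten)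
    {Δ : ℤ} (hΔ : Δ = (P'.flatten.length : ℤ) - P.flatten.length) (n a b : ℕ) :
    ∃ box : Finset (V d),
      (∀ ω : Fin (n + 1) → V d, IsSAW n ω → ∀ (mu : ℝ) (w : V d → ℝ),
        imb mu a b Λ P P' w (List.ofFn ω) =
        ∑ x ∈ box, w x * ((if st a b Λ P P' x (List.ofFn ω) = 2 then 1 else 0) -
          mu ^ (-Δ) * (if st a b Λ P P' x (List.ofFn ω) = 1 then 1 else 0))) ∧
      ∀ ω : Fin (n + 1) → V d, ((box.filter fun x =>
        st a b Λ P P' x (List.ofFn ω) ≠ 0).card : ℝ) ≤ (n + 1 : ℕ) := by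
  obtain ⟨v₁, hv₁, hst⟩ := card_st hP hne
  obtain ⟨L, hL⟩ : ∃ L : ℕ, ∀ ω : Fin (n + 1) → V d, IsSAW n ω → ∀ x, x + v₁ ∈ List.ofFn ω →
      x ∈ Fintype.piFinset fun _ : Fin d => Finset.Icc (-(L : ℤ)) L := by
    refine ⟨n + ∑ j, (v₁ j).natAbs, fun ω hω x hx => ?_⟩
    rw [List.mem_ofFn] at hx
    obtain ⟨i, hi⟩ := hx
    rw [Fintype.mem_piFinset]
    intro j
    have h1 := mem_box hω i j
    rw [hi] at h1
    have h2 := i.2
    have h3 := Finset.single_le_sum (f := fun j => (v₁ j).natAbs)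
      (fun _ _ => Nat.zero_le _) (Finset.mem_univ j)
    simp only [Pi.add_apply, abs_le] at h1
    simp only [Finset.mem_Icc, Nat.cast_add]
    have h4 : |v₁ j| ≤ ((∑ j, (v₁ j).natAbs : ℕ) : ℤ) := by
      rw [Int.abs_eq_natAbs]
      exact_mod_cast h3
    rw [abs_le] at h4
    constructor <;> omega
  obtain ⟨box, hbox⟩ : ∃ box : Finset (V d),
    box = Fintype.piFinset fun _ : Fin d => Finset.Icc (-(L : ℤ)) L := ⟨_, rfl⟩
  rw [← hbox] at hL
  refine ⟨box, fun ω hω mu w => ?_, fun ω => ?_⟩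
  · have hsee : ∀ x, (Occ a b (win x Λ) (sh x P) (List.ofFn ω) ↔
        st a b Λ P P' x (List.ofFn ω) = 1) := by
      intro x
      rw [st_one]
      exact ⟨fun h => ⟨(isW_ofFn ω).2 hω, h⟩, fun h => h.2⟩
    have hsee' : ∀ x, (Occ a b (win x Λ) (sh x P') (List.ofFn ω) ↔
        st a b Λ P P' x (List.ofFn ω) = 2) := by
      intro x
      rw [st_two hP hne]
      exact ⟨fun h => ⟨(isW_ofFn ω).2 hω, h⟩, fun h => h.2⟩
    unfold imb
    have e2 : (P.flatten.length : ℤ) - P'.flatten.length = -Δ := by rw [hΔ]; ring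
    simp only [hsee, hsee', e2]
    apply finsum_eq_sum_of_support_subset
    intro x hx
    rw [Function.mem_support] at hx
    by_contra hxb
    apply hx
    have h3 : st a b Λ P P' x (List.ofFn ω) = 0 := by
      by_contra h4
      exact hxb (by exact_mod_cast hL ω hω x (hst a b x _ h4))
    simp only [h3]
    norm_num
  · have h7 : (box.filter fun x => st a b Λ P P' x (List.ofFn ω) ≠ 0).card ≤
        (List.ofFn ω).toFinset.card := by
      apply Finset.card_le_card_of_injOn (fun x => x + v₁)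
      · intro x hx
        simp only [Finset.coe_filter] at hx
        simpa using hst a b x _ hx.2
      · intro x _ y _ hxy
        exact add_left_injective v₁ hxy
    have h8 := h7.trans (List.toFinset_card_le _)
    rw [List.length_ofFn] at h8
    exact_mod_cast h8

theorem sum_one_le {n a b : ℕ} {box : Finset (V d)} {ω : Fin (n + 1) → V d}
    (hc : ((box.filter fun x => st a b Λ P P' x (List.ofFn ω) ≠ 0).card : ℝ) ≤ (n + 1 : ℕ))
    (w : V d → ℝ) (hw : ∀ x, |w x| ≤ 1) :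
    |∑ x ∈ box, w x * (if st a b Λ P P' x (List.ofFn ω) = 1 then (1 : ℝ) else 0)| ≤
      (n + 1 : ℕ) := by
  refine (Finset.abs_sum_le_sum_abs _ _).trans ?_
  have h6 : ∀ x ∈ box, |w x * (if st a b Λ P P' x (List.ofFn ω) = 1 then (1 : ℝ) else 0)| ≤
      if st a b Λ P P' x (List.ofFn ω) ≠ 0 then 1 else 0 := by
    intro x _
    split_ifs with h7 h8 h8
    · rw [mul_one]; exact hw x
    · exact absurd h7 (by omega)
    · rw [mul_zero, abs_zero]; exact zero_le_one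
    · rw [mul_zero, abs_zero]
  refine (Finset.sum_le_sum h6).trans ?_
  rw [← Finset.sum_filter, Finset.sum_const, nsmul_eq_mul, mul_one]
  exact hc

/-- the imbalances at two fugacities -/
theorem imb_diff (hP : Pats Adj (↑Λ : Set (V d)) P P')
    {Δ : ℤ} (hΔ : Δ = (P'.flatten.length : ℤ) - P.flatten.length) {n : ℕ}
    {ω : Fin (n + 1) → V d} (hω : IsSAW n ω) (a b : ℕ) (mu nu : ℝ) (w : V d → ℝ)
    (hw : ∀ x, |w x| ≤ 1) :
    |imb mu a b Λ P P' w (List.ofFn ω)| ≤ |imb nu a b Λ P P' w (List.ofFn ω)| +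
      |nu ^ (-Δ) - mu ^ (-Δ)| * (n + 1 : ℕ) := by
  classical
  by_cases hne : P.flatten = P'.flatten
  · have hPP : P = P' := eq_of_flatten (hP.ex.imp fun p p' h => ⟨h.1, h.2.1, h.2.2.2.1⟩) hne hP.nd
    subst hPP
    have h0 : ∀ mu, imb mu a b Λ P P w (List.ofFn ω) = 0 := by
      intro mu
      unfold imb
      rw [sub_self, zpow_zero]
      simp
    rw [h0, h0, abs_zero, zero_add]
    positivity
  obtain ⟨box, h1, h2⟩ := imb_box hP hne hΔ n a b
  have e : imb mu a b Λ P P' w (List.ofFn ω) = imb nu a b Λ P P' w (List.ofFn ω) +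
      (nu ^ (-Δ) - mu ^ (-Δ)) *
        ∑ x ∈ box, w x * (if st a b Λ P P' x (List.ofFn ω) = 1 then (1 : ℝ) else 0) := by
    rw [h1 ω hω mu w, h1 ω hω nu w, Finset.mul_sum, ← Finset.sum_add_distrib]
    refine Finset.sum_congr rfl fun x _ => ?_
    ring
  rw [e]
  refine (abs_add_le _ _).trans (add_le_add le_rfl ?_)
  rw [abs_mul]
  exact mul_le_mul_of_nonneg_left (sum_one_le (h2 ω) w hw) (abs_nonneg _)

theorem abs_exp_sub (x : ℝ) : |Real.exp x - 1| ≤ |x| * Real.exp |x| := by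
  rcases le_total 0 x with h | h
  · rw [abs_of_nonneg h, abs_of_nonneg (by linarith [Real.one_le_exp h])]
    have h1 := Real.add_one_le_exp (-x)
    have h2 : Real.exp (-x) * Real.exp x = 1 := by rw [← Real.exp_add]; simp
    have h3 := mul_le_mul_of_nonneg_right h1 (Real.exp_pos x).le
    nlinarith
  · rw [abs_of_nonpos h, abs_of_nonpos (by linarith [Real.exp_le_one_iff.2 h])]
    have h1 := Real.add_one_le_exp x
    have h2 : 1 ≤ Real.exp (-x) := Real.one_le_exp (by linarith)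
    nlinarith

theorem rel_main (hP : Pats Adj (↑Λ : Set (V d)) P P') {L : ℝ} (hL : 0 ≤ L) :
    ∃ Q : ℝ, 3 ≤ Q ∧ ∀ nu : ℝ, 0 < nu → |Real.log nu| ≤ L → ∀ n : ℕ, 1 ≤ n → ∀ H : ℝ, 1 ≤ H →
      (∀ j, (C d j : ℝ) * nu ^ n ≤ H * C d n * nu ^ j) → ∀ a b : ℕ,
      ∀ w : V d → ℝ, (∀ x, |w x| ≤ 1) → ∀ t : ℝ, 0 ≤ t →
      (({ω : Fin (n + 1) → V d | IsSAW n ω ∧
        t ≤ |imb nu a b Λ P P' w (List.ofFn ω)|}.ncard : ℕ) : ℝ) ≤
        C d n * (Q * n * H) * Real.exp (-(t ^ 2 / (Q * n))) := by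
  classical
  obtain ⟨Δ, hΔ⟩ : ∃ Δ : ℤ, Δ = (P'.flatten.length : ℤ) - P.flatten.length := ⟨_, rfl⟩
  obtain ⟨B, hB⟩ : ∃ B : ℝ, B = Real.exp (|(Δ : ℝ)| * (L + 1)) := ⟨_, rfl⟩
  have hB0 : 0 < B := by rw [hB]; exact Real.exp_pos _
  obtain ⟨M, hM, hMd⟩ := exists_mod Λ
  have hM0 : (0 : ℝ) < M := by exact_mod_cast hM
  obtain ⟨J0, hJ0⟩ : ∃ J0 : ℝ, J0 = (M : ℝ) ^ d := ⟨_, rfl⟩
  have hJ00 : 0 < J0 := by rw [hJ0]; positivity
  obtain ⟨C₀, hC₀⟩ : ∃ C₀ : ℝ, C₀ = 2 * (B * (|(Δ : ℝ)| * Real.exp |(Δ : ℝ)|)) := ⟨_, rfl⟩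
  have hC₀0 : 0 ≤ C₀ := by rw [hC₀]; positivity
  obtain ⟨Q, hQ⟩ : ∃ Q : ℝ, Q = 3 + 4 * C₀ ^ 2 + 16 * J0 + 4 * J0 ^ 2 * (8 * (1 + B) ^ 2) :=
    ⟨_, rfl⟩
  have hQ1 : 0 ≤ 4 * C₀ ^ 2 := by positivity
  have hQ2 : 0 ≤ 16 * J0 := by positivity
  have hQ3 : 0 ≤ 4 * J0 ^ 2 * (8 * (1 + B) ^ 2) := by positivity
  have hQ0 : 3 ≤ Q := by rw [hQ]; linarith
  refine ⟨Q, hQ0, fun nu hnu hlog n hn H hH hgr a b w hw t ht => ?_⟩
  have hn0 : (0 : ℝ) < n := by exact_mod_cast hn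
  have hn1 : (1 : ℝ) ≤ n := by exact_mod_cast hn
  obtain ⟨E, hE⟩ : ∃ E : Set (Fin (n + 1) → V d),
    E = {ω | IsSAW n ω ∧ t ≤ |imb nu a b Λ P P' w (List.ofFn ω)|} := ⟨_, rfl⟩
  rw [← hE]
  have hall : (E.ncard : ℝ) ≤ C d n := by
    have h1 := Set.ncard_le_ncard (show E ⊆ {ω | IsSAW n ω} from fun ω hω => by
      rw [hE] at hω; exact hω.1) (saw_finite d n)
    rw [C_ncard] at h1
    exact_mod_cast h1
  have hnH : 1 ≤ (n : ℝ) * H := by nlinarith
  have hQnH : 3 ≤ Q * n * H := by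
    rw [mul_assoc]
    nlinarith
  have htriv : t ^ 2 ≤ Q * n → (E.ncard : ℝ) ≤
      C d n * (Q * n * H) * Real.exp (-(t ^ 2 / (Q * n))) := by
    intro h
    have h1 : t ^ 2 / (Q * n) ≤ 1 := by
      rw [div_le_one (by positivity)]
      exact h
    have h2 : Real.exp (-1) ≤ Real.exp (-(t ^ 2 / (Q * n))) := Real.exp_le_exp.2 (by linarith)
    have h3 : 1 ≤ 3 * Real.exp (-1) := by
      rw [Real.exp_neg, ← div_eq_mul_inv, one_le_div (Real.exp_pos _)]
      have := Real.exp_one_lt_d9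
      linarith
    have h4 : 1 ≤ (Q * n * H) * Real.exp (-(t ^ 2 / (Q * n))) := by
      calc 1 ≤ 3 * Real.exp (-1) := h3
        _ ≤ _ := mul_le_mul hQnH h2 (Real.exp_pos _).le (by positivity)
    calc (E.ncard : ℝ) ≤ C d n := hall
      _ = C d n * 1 := (mul_one _).symm
      _ ≤ C d n * ((Q * n * H) * Real.exp (-(t ^ 2 / (Q * n)))) :=
          mul_le_mul_of_nonneg_left h4 (Nat.cast_nonneg _)
      _ = _ := by ring
  by_cases hne : P.flatten = P'.flatten
  · have hPP : P = P' := eq_of_flatten (hP.ex.imp fun p p' h => ⟨h.1, h.2.1, h.2.2.2.1⟩) hne hP.nd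
    subst hPP
    have h0 : ∀ l, imb nu a b Λ P P w l = 0 := by
      intro l
      unfold imb
      rw [sub_self, zpow_zero]
      simp
    rcases eq_or_lt_of_le ht with h | h
    · apply htriv
      rw [← h, zero_pow two_ne_zero]
      positivity
    · have : E = ∅ := by
        rw [hE]
        ext ω
        simp only [Set.mem_ofPred_eq, Set.mem_empty_iff_false, iff_false, not_and, not_le]
        intro _
        rw [h0, abs_zero]
        exact h
      rw [this, Set.ncard_empty, Nat.cast_zero]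
      positivity
  obtain ⟨box, e1, hcount⟩ := imb_box hP hne hΔ n a b
  rcases lt_or_ge t (2 * C₀) with hsmall | hbig
  · apply htriv
    have h3 : t ^ 2 ≤ (2 * C₀) ^ 2 := pow_le_pow_left₀ ht hsmall.le 2
    have h4 : 4 * C₀ ^ 2 ≤ Q := by rw [hQ]; linarith
    nlinarith
  obtain ⟨r, hr⟩ : ∃ r : ℝ, r = (Real.exp (-(1 / n)) / nu) ^ Δ := ⟨_, rfl⟩
  obtain ⟨ρ, hρ⟩ : ∃ ρ : ℝ, ρ = nu ^ (-Δ) := ⟨_, rfl⟩
  have hρ0 : 0 < ρ := by rw [hρ]; positivity
  have hρB : ρ ≤ B := by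
    have e : ρ = Real.exp (Real.log nu * (-Δ : ℤ)) := by
      rw [hρ, Real.exp_mul, Real.exp_log hnu, Real.rpow_intCast]
    rw [e, hB]
    apply Real.exp_le_exp.2
    refine (le_abs_self _).trans ?_
    rw [abs_mul, mul_comm]
    push_cast
    rw [abs_neg]
    exact mul_le_mul_of_nonneg_left (by linarith) (abs_nonneg _)
  obtain ⟨J, hJ⟩ : ∃ J : Finset (V d),
    J = Fintype.piFinset fun _ : Fin d => Finset.Ico 0 (M : ℤ) := ⟨_, rfl⟩
  let S : V d → Finset (V d) := fun κ =>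
    box.filter fun x => (fun j => x j % (M : ℤ)) = κ
  have hSd : ∀ κ, ∀ x ∈ S κ, ∀ y ∈ S κ, x ≠ y → ∀ v ∈ win x Λ, v ∉ win y Λ := by
    intro κ x hx y hy hxy
    have h1 := (Finset.mem_filter.1 hx).2
    have h2 := (Finset.mem_filter.1 hy).2
    have h3 := h1.trans h2.symm
    exact hMd x y (fun j => congrFun h3 j) hxy
  have hsumS : ∀ f : V d → ℝ, ∑ κ ∈ J, ∑ x ∈ S κ, f x = ∑ x ∈ box, f x := by
    intro f
    apply Finset.sum_fiberwise_of_maps_to
    intro x _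
    have hM' : (0 : ℤ) < M := by exact_mod_cast hM
    rw [hJ, Fintype.mem_piFinset]
    intro j
    rw [Finset.mem_Ico]
    exact ⟨Int.emod_nonneg _ hM'.ne', Int.emod_lt_of_pos _ hM'⟩
  have hJcard : (J.card : ℝ) = J0 := by
    rw [hJ, Fintype.card_piFinset, hJ0]
    simp
  -- comparison of the imbalance with the centred sums
  have hcomp : ∀ ω : Fin (n + 1) → V d, IsSAW n ω →
      |imb nu a b Λ P P' w (List.ofFn ω)| ≤
        |∑ x ∈ box, dv a b Λ P P' r w x (List.ofFn ω)| + C₀ := by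
    intro ω hω
    have e3 : imb nu a b Λ P P' w (List.ofFn ω) = ∑ x ∈ box, dv a b Λ P P' r w x (List.ofFn ω) +
        (r - ρ) * ∑ x ∈ box, w x * (if st a b Λ P P' x (List.ofFn ω) = 1 then 1 else 0) := by
      rw [e1 ω hω nu w, ← hρ, Finset.mul_sum, ← Finset.sum_add_distrib]
      refine Finset.sum_congr rfl fun x _ => ?_
      unfold dv
      ring
    have h9 : |r - ρ| ≤ B * (|(Δ : ℝ)| * (1 / n) * Real.exp |(Δ : ℝ)|) := by
      have e' : Real.exp (-(1 / (n : ℝ))) ^ Δ = Real.exp (-(1 / n) * Δ) := by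
        rw [← Real.rpow_intCast, ← Real.exp_mul]
      have e : r = ρ * Real.exp (-(1 / n) * Δ) := by
        rw [hr, div_zpow, e', hρ, zpow_neg]
        field_simp
      have e4 : r - ρ = ρ * (Real.exp (-(1 / n) * Δ) - 1) := by rw [e]; ring
      rw [e4, abs_mul, abs_of_pos hρ0]
      apply mul_le_mul hρB _ (abs_nonneg _) hB0.le
      have e5 : |(-(1 / (n : ℝ)) * Δ)| = |(Δ : ℝ)| * (1 / n) := by
        rw [abs_mul, abs_neg, abs_of_nonneg (by positivity : (0 : ℝ) ≤ 1 / n)]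
        ring
      refine (abs_exp_sub _).trans ?_
      rw [e5]
      apply mul_le_mul_of_nonneg_left _ (by positivity)
      apply Real.exp_le_exp.2
      have h3 : 1 / (n : ℝ) ≤ 1 := by rw [div_le_one hn0]; exact hn1
      nlinarith [abs_nonneg (Δ : ℝ)]
    have h10 : |r - ρ| * ((n + 1 : ℕ) : ℝ) ≤ C₀ := by
      have h11 : ((n + 1 : ℕ) : ℝ) ≤ 2 * n := by push_cast; linarith
      calc |r - ρ| * ((n + 1 : ℕ) : ℝ) ≤
            B * (|(Δ : ℝ)| * (1 / n) * Real.exp |(Δ : ℝ)|) * (2 * n) :=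
            mul_le_mul h9 h11 (by positivity) (by positivity)
        _ = C₀ := by
            rw [hC₀]
            field_simp
    rw [e3]
    refine (abs_add_le _ _).trans (add_le_add le_rfl ?_)
    rw [abs_mul]
    exact (mul_le_mul_of_nonneg_left (sum_one_le (hcount ω) w hw) (abs_nonneg _)).trans h10
  -- union bound
  obtain ⟨u, hu⟩ : ∃ u : ℝ, u = t / 2 / J0 := ⟨_, rfl⟩
  have hu0 : 0 ≤ u := by rw [hu]; positivity
  obtain ⟨R, hR⟩ : ∃ R : ℝ,
    R = C d n * (8 * n * H) * Real.exp (-(u ^ 2 / (8 * (1 + B) ^ 2 * n))) := ⟨_, rfl⟩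
  let T : V d → (V d → ℝ) → Finset (Fin (n + 1) → V d) := fun κ w' =>
    (saw_finite d n).toFinset.filter fun ω => u ≤ ∑ x ∈ S κ, dv a b Λ P P' r w' x (List.ofFn ω)
  have hT : ∀ κ w', (∀ x, |w' x| ≤ 1) → ((T κ w').card : ℝ) ≤ R := by
    intro κ w' hw'
    rw [hR]
    refine rel_class hnu hlog hP hne hΔ hB hn hH hgr a b (S κ) (hSd κ) w' hw' u hu0 (T κ w')
      fun ω hω => ?_
    have h1 := Finset.mem_filter.1 hω
    rw [← hr]
    exact ⟨by simpa using h1.1, h1.2⟩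
  have hsub : E ⊆ ↑(J.biUnion fun κ => T κ w ∪ T κ (fun x => -w x)) := by
    intro ω hω
    rw [hE] at hω
    obtain ⟨h1, h2⟩ := hω
    have h3 := hcomp ω h1
    have h4 : t / 2 ≤ |∑ x ∈ box, dv a b Λ P P' r w x (List.ofFn ω)| := by linarith
    rw [← hsumS] at h4
    have h5 := h4.trans (Finset.abs_sum_le_sum_abs _ _)
    obtain ⟨κ, hκ, hκ'⟩ : ∃ κ ∈ J, u ≤ |∑ x ∈ S κ, dv a b Λ P P' r w x (List.ofFn ω)| := by
      by_contra hc
      push Not at hc
      have hJne : J.Nonempty := by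
        rw [← Finset.card_pos]
        have : (0 : ℝ) < J.card := by rw [hJcard]; exact hJ00
        exact_mod_cast this
      have h6 := Finset.sum_lt_sum_of_nonempty hJne hc
      rw [Finset.sum_const, nsmul_eq_mul, hJcard, hu] at h6
      have : J0 * (t / 2 / J0) = t / 2 := by field_simp
      linarith
    simp only [Finset.coe_biUnion, Set.mem_iUnion]
    refine ⟨κ, hκ, ?_⟩
    have hmem : ω ∈ (saw_finite d n).toFinset := by simpa using h1
    rcases le_abs.1 hκ' with h7 | h7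
    · exact Finset.mem_coe.2 (Finset.mem_union_left _ (Finset.mem_filter.2 ⟨hmem, h7⟩))
    · refine Finset.mem_coe.2 (Finset.mem_union_right _ (Finset.mem_filter.2 ⟨hmem, ?_⟩))
      simp only [dv_neg, Finset.sum_neg_distrib]
      exact h7
  have hcard : (E.ncard : ℝ) ≤ J0 * (2 * R) := by
    have h1 := Set.ncard_le_ncard hsub (Finset.finite_toSet _)
    rw [Set.ncard_coe_finset] at h1
    have h2 : ((J.biUnion fun κ => T κ w ∪ T κ (fun x => -w x)).card : ℝ) ≤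
        ∑ κ ∈ J, (((T κ w).card : ℝ) + ((T κ (fun x => -w x)).card : ℝ)) := by
      have h3 := Finset.card_biUnion_le (s := J) (t := fun κ => T κ w ∪ T κ (fun x => -w x))
      have h4 : ∑ κ ∈ J, (T κ w ∪ T κ (fun x => -w x)).card ≤
          ∑ κ ∈ J, ((T κ w).card + (T κ (fun x => -w x)).card) :=
        Finset.sum_le_sum fun κ _ => Finset.card_union_le _ _
      exact_mod_cast h3.trans h4
    have h5 : ∑ κ ∈ J, (((T κ w).card : ℝ) + ((T κ (fun x => -w x)).card : ℝ)) ≤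
        ∑ _κ ∈ J, (2 * R) := by
      refine Finset.sum_le_sum fun κ _ => ?_
      have h6 := hT κ w hw
      have h7 := hT κ (fun x => -w x) (fun x => by rw [abs_neg]; exact hw x)
      linarith
    rw [Finset.sum_const, nsmul_eq_mul, hJcard] at h5
    have h8 : (E.ncard : ℝ) ≤ ((J.biUnion fun κ => T κ w ∪ T κ (fun x => -w x)).card : ℝ) := by
      exact_mod_cast h1
    exact h8.trans (h2.trans h5)
  refine hcard.trans ?_
  have hu2 : t ^ 2 / (Q * n) ≤ u ^ 2 / (8 * (1 + B) ^ 2 * n) := by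
    have e1 : u ^ 2 / (8 * (1 + B) ^ 2 * n) = t ^ 2 / ((4 * J0 ^ 2 * (8 * (1 + B) ^ 2)) * n) := by
      rw [hu]
      field_simp
      ring
    rw [e1]
    apply div_le_div_of_nonneg_left (sq_nonneg _) (by positivity)
    apply mul_le_mul_of_nonneg_right _ hn0.le
    rw [hQ]
    linarith
  have hJQ : 16 * J0 ≤ Q := by rw [hQ]; linarith
  calc J0 * (2 * R) = C d n * ((16 * J0) * n * H) *
        Real.exp (-(u ^ 2 / (8 * (1 + B) ^ 2 * n))) := by rw [hR]; ring
    _ ≤ _ := by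
        apply mul_le_mul _ (Real.exp_le_exp.2 (by linarith)) (Real.exp_pos _).le (by positivity)
        apply mul_le_mul_of_nonneg_left _ (Nat.cast_nonneg _)
        apply mul_le_mul_of_nonneg_right _ (by linarith)
        exact mul_le_mul_of_nonneg_right hJQ hn0.le

end Pool.Agent.H580.GT
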