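import Pool.Agent.H986.GB.Lst
import Pool.Agent.H986.GB.Abs

/-!
The switches of the self-avoiding walks of `ℤ²`: the translates of a window in which the walk shows
one of two exchangeable patterns.
-/

set_option autoImplicit false

open scoped ENNReal

namespace Pool.Agent.H580.GT

open Pool.Agent.H986.GB

/-- the lattice -/
abbrev V (d : ℕ) : Type := Fin d → ℤ

variable {d : ℕ}

/-- nearest neighbours -/
def Adj (p q : V d) : Prop := ∑ j : Fin d, |q j - p j| = 1

/-- translation of a pattern -/
def sh (x : V d) (P : List (List (V d))) : List (List (V d)) :=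
  P.map (List.map (x + ·))

/-- the window `x + Λ` -/
def win (x : V d) (Λ : Finset (V d)) : Set (V d) := {v | v - x ∈ Λ}

instance (x : V d) (Λ : Finset (V d)) : DecidablePred (· ∈ win x Λ) := fun v =>
  inferInstanceAs (Decidable (v - x ∈ Λ))

theorem sh_flatten (x : V d) (P : List (List (V d))) :
    (sh x P).flatten = P.flatten.map (x + ·) := by
  unfold sh
  rw [List.map_flatten]

theorem pshift {Λ : Finset (V d)} {P P' : List (List (V d))}
    (h : Pats Adj (↑Λ : Set (V d)) P P') (x : V d) :
    Pats Adj (win x Λ) (sh x P) (sh x P') where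
  ex := by
    unfold sh
    rw [List.forall₂_map_left_iff, List.forall₂_map_right_iff]
    refine h.ex.imp fun p p' hp => ?_
    obtain ⟨h1, h2, h3, h4, h5, h6⟩ := hp
    have ha : ∀ p q : V d, Adj (x + p) (x + q) ↔ Adj p q := by
      intro p q
      unfold Adj
      simp
    refine ⟨by simpa using h1, by simpa using h2, by rw [List.head?_map, List.head?_map, h3],
      by rw [List.getLast?_map, List.getLast?_map, h4], ?_, ?_⟩
    · rw [List.isChain_map]
      exact h5.imp fun u v huv => (ha u v).2 huv
    · rw [List.isChain_map]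
      exact h6.imp fun u v huv => (ha u v).2 huv
  nd := by
    rw [sh_flatten]
    exact h.nd.map (add_right_injective x)
  nd' := by
    rw [sh_flatten]
    exact h.nd'.map (add_right_injective x)
  sub := by
    intro v hv
    rw [sh_flatten, List.mem_map] at hv
    obtain ⟨u, hu, rfl⟩ := hv
    change x + u - x ∈ Λ
    rw [add_sub_cancel_left]
    exact h.sub u hu
  sub' := by
    intro v hv
    rw [sh_flatten, List.mem_map] at hv
    obtain ⟨u, hu, rfl⟩ := hv
    change x + u - x ∈ Λ
    rw [add_sub_cancel_left]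
    exact h.sub' u hu

section

variable (a b : ℕ) (Λ : Finset (V d)) (P P' : List (List (V d)))

open Classical in
/-- the state of the window `x + Λ` -/
noncomputable def st (x : V d) (l : List (V d)) : ℕ :=
  if IsW Adj 0 l then
    if Occ a b (win x Λ) (sh x P) l then 1
    else if Occ a b (win x Λ) (sh x P') l then 2 else 0
  else 0

/-- the exchange in the window `x + Λ` -/
noncomputable def tg (x : V d) (l : List (V d)) : List (V d) :=
  if st a b Λ P P' x l = 1 then l.flatMap (phi (win x Λ) (sh x P) (sh x P'))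
  else if st a b Λ P P' x l = 2 then l.flatMap (phi (win x Λ) (sh x P') (sh x P)) else l

variable {a b Λ P P'}

theorem st_one {x : V d} {l : List (V d)} :
    st a b Λ P P' x l = 1 ↔ IsW Adj 0 l ∧ Occ a b (win x Λ) (sh x P) l := by
  unfold st
  split_ifs with h1 h2 h3
  · simp [h1, h2]
  · simp [h1, h2]
  · simp [h1, h2]
  · simp [h1]

theorem excl (hP : Pats Adj (↑Λ : Set (V d)) P P') (hne : P.flatten ≠ P'.flatten) {x : V d}
    {l : List (V d)} (h1 : Occ a b (win x Λ) (sh x P) l) (h2 : Occ a b (win x Λ) (sh x P') l) :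
    False := by
  have h3 := shows_filter (sh x P) (pshift hP x).mem l h1.shows
  have h4 := shows_filter (sh x P') (pshift hP x).symm.mem l h2.shows
  rw [h3, sh_flatten, sh_flatten] at h4
  exact hne (List.map_injective_iff.2 (add_right_injective x) h4)

theorem st_two (hP : Pats Adj (↑Λ : Set (V d)) P P') (hne : P.flatten ≠ P'.flatten)
    {x : V d} {l : List (V d)} :
    st a b Λ P P' x l = 2 ↔ IsW Adj 0 l ∧ Occ a b (win x Λ) (sh x P') l := by
  unfold st
  split_ifs with h1 h2 h3
  · simp only [h1, true_and]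
    constructor
    · intro h; omega
    · intro h
      exact (excl hP hne h2 h).elim
  · simp [h1, h3]
  · simp [h1, h3]
  · simp [h1]

theorem tg_one {x : V d} {l : List (V d)} (h : st a b Λ P P' x l = 1) :
    tg a b Λ P P' x l = l.flatMap (phi (win x Λ) (sh x P) (sh x P')) := if_pos h

theorem tg_two {x : V d} {l : List (V d)} (h : st a b Λ P P' x l = 2) :
    tg a b Λ P P' x l = l.flatMap (phi (win x Λ) (sh x P') (sh x P)) := by
  unfold tg
  rw [if_neg (by omega), if_pos h]

theorem tg_else {x : V d} {l : List (V d)} (h : st a b Λ P P' x l ≠ 1)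
    (h' : st a b Λ P P' x l ≠ 2) : tg a b Λ P P' x l = l := by
  unfold tg
  rw [if_neg h, if_neg h']

theorem st_tg_one (hP : Pats Adj (↑Λ : Set (V d)) P P') (hne : P.flatten ≠ P'.flatten)
    {x : V d} {l : List (V d)} (h : st a b Λ P P' x l = 1) :
    st a b Λ P P' x (tg a b Λ P P' x l) = 2 := by
  rw [tg_one h]
  rw [st_one] at h
  rw [st_two hP hne]
  exact ⟨occ_isW (pshift hP x) h.2 h.1, occ_map (pshift hP x) h.2⟩

theorem st_tg_two (hP : Pats Adj (↑Λ : Set (V d)) P P') (hne : P.flatten ≠ P'.flatten)
    {x : V d} {l : List (V d)} (h : st a b Λ P P' x l = 2) :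
    st a b Λ P P' x (tg a b Λ P P' x l) = 1 := by
  rw [tg_two h]
  rw [st_two hP hne] at h
  rw [st_one]
  exact ⟨occ_isW (pshift hP x).symm h.2 h.1, occ_map (pshift hP x).symm h.2⟩

theorem tg_tg (hP : Pats Adj (↑Λ : Set (V d)) P P') (hne : P.flatten ≠ P'.flatten)
    (x : V d) (l : List (V d)) : tg a b Λ P P' x (tg a b Λ P P' x l) = l := by
  by_cases h : st a b Λ P P' x l = 1
  · rw [tg_two (st_tg_one hP hne h), tg_one h]
    exact occ_inv (pshift hP x) (st_one.1 h).2
  · by_cases h' : st a b Λ P P' x l = 2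
    · rw [tg_one (st_tg_two hP hne h'), tg_two h']
      exact occ_inv (pshift hP x).symm ((st_two hP hne).1 h').2
    · rw [tg_else h h', tg_else h h']

/-- a switch does not change the others -/
theorem st_other (hP : Pats Adj (↑Λ : Set (V d)) P P') (hne : P.flatten ≠ P'.flatten)
    {x y : V d} (hxy : ∀ v ∈ win x Λ, v ∉ win y Λ) (l : List (V d)) :
    st a b Λ P P' y (tg a b Λ P P' x l) = st a b Λ P P' y l := by
  -- one direction suffices
  have key : ∀ l, (st a b Λ P P' x l = 1 ∨ st a b Λ P P' x l = 2) →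
      ((st a b Λ P P' y l = 1 → st a b Λ P P' y (tg a b Λ P P' x l) = 1) ∧
        (st a b Λ P P' y l = 2 → st a b Λ P P' y (tg a b Λ P P' x l) = 2)) := by
    intro l hl
    have main : ∀ Q : List (List (V d)), (∀ q ∈ sh y Q, ∀ v ∈ q, v ∈ win y Λ) →
        IsW Adj 0 l ∧ Occ a b (win y Λ) (sh y Q) l →
        IsW Adj 0 (tg a b Λ P P' x l) ∧
          Occ a b (win y Λ) (sh y Q) (tg a b Λ P P' x l) := by
      intro Q hQ h
      rcases hl with h1 | h1
      · rw [tg_one h1]
        rw [st_one] at h1
        exact ⟨occ_isW (pshift hP x) h1.2 h.1, occ_other (pshift hP x) h1.2 hxy hQ h.2⟩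
      · rw [tg_two h1]
        rw [st_two hP hne] at h1
        exact ⟨occ_isW (pshift hP x).symm h1.2 h.1, occ_other (pshift hP x).symm h1.2 hxy hQ h.2⟩
    constructor
    · intro h
      rw [st_one] at h ⊢
      exact main P (pshift hP y).mem h
    · intro h
      rw [st_two hP hne] at h ⊢
      exact main P' (pshift hP y).symm.mem h
  have hval : ∀ l, st a b Λ P P' y l = 0 ∨ st a b Λ P P' y l = 1 ∨ st a b Λ P P' y l = 2 := by
    intro l
    unfold st
    split_ifs <;> simp
  by_cases h : st a b Λ P P' x l = 1 ∨ st a b Λ P P' x l = 2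
  · have h' : st a b Λ P P' x (tg a b Λ P P' x l) = 1 ∨ st a b Λ P P' x (tg a b Λ P P' x l) = 2 := by
      rcases h with h | h
      · exact Or.inr (st_tg_one hP hne h)
      · exact Or.inl (st_tg_two hP hne h)
    have k1 := key l h
    have k2 := key _ h'
    rw [tg_tg hP hne] at k2
    rcases hval l with h3 | h3 | h3
    · rcases hval (tg a b Λ P P' x l) with h4 | h4 | h4
      · rw [h3, h4]
      · rw [k2.1 h4] at h3
        omega
      · rw [k2.2 h4] at h3
        omega
    · rw [h3, k1.1 h3]
    · rw [h3, k1.2 h3]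
  · push Not at h
    rw [tg_else h.1 h.2]

/-- the weights of the walks -/
noncomputable def Wt (z : ℝ) (l : List (V d)) : ℝ≥0∞ :=
  open Classical in if IsW Adj 0 l then ENNReal.ofReal (z ^ l.length) else 0

theorem Wt_tg (hP : Pats Adj (↑Λ : Set (V d)) P P') {z : ℝ} (hz : 0 < z)
    {x : V d} {l : List (V d)} (h : st a b Λ P P' x l = 1) :
    Wt z (tg a b Λ P P' x l) =
      ENNReal.ofReal (z ^ ((P'.flatten.length : ℤ) - P.flatten.length)) * Wt z l := by
  rw [tg_one h]
  rw [st_one] at h
  unfold Wt
  rw [if_pos (occ_isW (pshift hP x) h.2 h.1), if_pos h.1, ← ENNReal.ofReal_mul (by positivity)]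
  congr 1
  have h1 := occ_len (pshift hP x) h.2
  rw [sh_flatten, sh_flatten, List.length_map, List.length_map] at h1
  rw [← zpow_natCast, ← zpow_natCast, ← zpow_add₀ hz.ne']
  congr 1
  omega

end

end Pool.Agent.H580.GT
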