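import Pool.Agent.H580.GT.Cnt
import Pool.Agent.H580.GT.Basic

/-!
The total weight of the self-avoiding walks below the critical point, in terms of the growth of
`C n / μ ^ n` up to length `n`.
-/

set_option autoImplicit false

open scoped ENNReal

namespace Pool.Agent.H580.GT

open Pool.Agent.H986.GB

variable {d : ℕ}

theorem isW_ofFn {n : ℕ} (ω : Fin (n + 1) → V d) :
    IsW Adj 0 (List.ofFn ω) ↔ IsSAW n ω := by
  unfold IsW IsSAW
  rw [List.ofFn_succ, List.head?_cons, Option.some.injEq, ← List.ofFn_succ, List.isChain_ofFn,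
    List.nodup_ofFn]
  constructor
  · rintro ⟨h1, h2, h3⟩
    exact ⟨h1, h3, fun i => h2 i (by omega)⟩
  · rintro ⟨h1, h2, h3⟩
    exact ⟨h1, fun i hi => h3 ⟨i, by omega⟩, h2⟩

/-- the total weight -/
theorem total {z : ℝ} (hz : 0 < z) :
    ∑' l : List (V d), Wt z l = ∑' n : ℕ, ENNReal.ofReal (C d n * z ^ (n + 1)) := by
  classical
  rw [← Equiv.tsum_eq (List.equivSigmaTuple (α := V d)).symm, ENNReal.tsum_sigma']
  rw [tsum_eq_zero_add' ENNReal.summable]
  have h0 : ∑' f : Fin 0 → V d, Wt z (List.equivSigmaTuple.symm ⟨0, f⟩) = 0 := by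
    rw [ENNReal.tsum_eq_zero]
    intro f
    unfold Wt
    rw [if_neg]
    rintro ⟨h, -⟩
    change (List.ofFn f).head? = _ at h
    simp at h
  rw [h0, zero_add]
  refine tsum_congr fun n => ?_
  have := Fintype.ofFinite {ω : Fin (n + 1) → V d // IsSAW n ω}
  have h1 : ∀ f : Fin (n + 1) → V d, Wt z (List.equivSigmaTuple.symm ⟨n + 1, f⟩) =
      {ω | IsSAW n ω}.indicator (fun _ => ENNReal.ofReal (z ^ (n + 1))) f := by
    intro f
    change Wt z (List.ofFn f) = _
    unfold Wt
    rw [List.length_ofFn, Set.indicator_apply]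
    simp only [isW_ofFn, Set.mem_ofPred_eq]
  rw [tsum_congr h1, ← tsum_subtype {ω | IsSAW n ω} (fun _ => ENNReal.ofReal (z ^ (n + 1)))]
  change ∑' _ : {ω : Fin (n + 1) → V d // IsSAW n ω}, ENNReal.ofReal (z ^ (n + 1)) = _
  rw [tsum_fintype, Finset.sum_const, Finset.card_univ, nsmul_eq_mul,
    ENNReal.ofReal_mul (Nat.cast_nonneg _), ENNReal.ofReal_natCast]
  congr 2
  unfold C
  rw [Nat.card_eq_fintype_card]

/-- the total weight at `z = exp (-2 G / n) / μ`, `G = log (n H)` -/
theorem total_le {μ : ℝ} (hμ : 0 < μ) {n : ℕ} (hn : 3 ≤ n) {H G : ℝ} (hH : 1 ≤ H)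
    (hG : G = Real.log (n * H)) (h : ∀ j ≤ n, (C d j : ℝ) ≤ H * μ ^ j) :
    ∑' l : List (V d), Wt (Real.exp (-(2 * G / n)) / μ) l ≤
      ENNReal.ofReal (Real.exp ((3 + |Real.log (1 / μ)|) * G)) := by
  have hn0 : (0 : ℝ) < n := by positivity
  have hn3 : (3 : ℝ) ≤ n := by exact_mod_cast hn
  have hnH : 0 < (n : ℝ) * H := by positivity
  have hnH3 : 3 ≤ (n : ℝ) * H := by nlinarith
  have hG1 : 1 ≤ G := by
    rw [hG, Real.le_log_iff_exp_le hnH]
    have := Real.exp_one_lt_d9
    linarith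
  have hG0 : 0 < G := by linarith
  have heG : Real.exp G = n * H := by rw [hG, Real.exp_log hnH]
  obtain ⟨z, hz⟩ : ∃ z : ℝ, z = Real.exp (-(2 * G / n)) / μ := ⟨_, rfl⟩
  have hz0 : 0 < z := by rw [hz]; positivity
  rw [← hz, total hz0]
  obtain ⟨q, hq⟩ : ∃ q : ℝ, q = Real.exp (-(G / n)) := ⟨_, rfl⟩
  have hq0 : 0 < q := by rw [hq]; exact Real.exp_pos _
  have hx0 : 0 < G / n := by positivity
  have hq1 : q < 1 := by
    rw [hq]
    have h := Real.exp_lt_exp.2 (show -(G / (n : ℝ)) < 0 by linarith)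
    rwa [Real.exp_zero] at h
  have hHG : H ≤ Real.exp G := by
    rw [heG]; nlinarith
  have hterm : ∀ m : ℕ, (C d m : ℝ) * z ^ (m + 1) ≤ Real.exp G * (1 / μ) * q ^ m := by
    intro m
    have h1 := C_growth hμ hH (by omega) h m
    have h2 : H ^ (m / n + 1) ≤ Real.exp (G * (m / n) + G) := by
      calc H ^ (m / n + 1) ≤ (Real.exp G) ^ (m / n + 1) := by gcongr
        _ = Real.exp (((m / n + 1 : ℕ) : ℝ) * G) := by rw [← Real.exp_nat_mul]
        _ ≤ _ := by
          apply Real.exp_le_exp.2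
          push_cast
          have : ((m / n : ℕ) : ℝ) ≤ (m : ℝ) / n := Nat.cast_div_le
          nlinarith
    calc (C d m : ℝ) * z ^ (m + 1) ≤ (Real.exp (G * (m / n) + G) * μ ^ m) * z ^ (m + 1) := by
          apply mul_le_mul_of_nonneg_right _ (by positivity)
          exact h1.trans (mul_le_mul_of_nonneg_right h2 (by positivity))
      _ = Real.exp (G * (m / n) + G) * (1 / μ) * Real.exp (-(2 * G / n)) ^ (m + 1) := by
          rw [hz, div_pow, pow_succ μ m]
          field_simp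
      _ = Real.exp (G * (m / n) + G + ((m + 1 : ℕ) : ℝ) * (-(2 * G / n))) * (1 / μ) := by
          rw [← Real.exp_nat_mul, Real.exp_add (G * (m / n) + G)]
          ring
      _ ≤ Real.exp (G + (m : ℝ) * (-(G / n))) * (1 / μ) := by
          apply mul_le_mul_of_nonneg_right _ (by positivity)
          apply Real.exp_le_exp.2
          push_cast
          have e : G * ((m : ℝ) / n) + G + ((m : ℝ) + 1) * (-(2 * G / n)) =
              G + (m : ℝ) * (-(G / n)) - 2 * (G / n) := by ring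
          rw [e]
          linarith
      _ = _ := by
          rw [Real.exp_add, Real.exp_nat_mul, ← hq]
          ring
  have hsum : Summable fun m : ℕ => Real.exp G * (1 / μ) * q ^ m :=
    (summable_geometric_of_lt_one hq0.le hq1).mul_left _
  calc ∑' n : ℕ, ENNReal.ofReal (C d n * z ^ (n + 1))
      ≤ ∑' m : ℕ, ENNReal.ofReal (Real.exp G * (1 / μ) * q ^ m) :=
        ENNReal.tsum_le_tsum fun m => ENNReal.ofReal_le_ofReal (hterm m)
    _ = ENNReal.ofReal (∑' m : ℕ, Real.exp G * (1 / μ) * q ^ m) :=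
        (ENNReal.ofReal_tsum_of_nonneg (fun m => by positivity) hsum).symm
    _ ≤ _ := ?_
  apply ENNReal.ofReal_le_ofReal
  rw [tsum_mul_left, tsum_geometric_of_lt_one hq0.le hq1]
  have hgeo : (1 - q)⁻¹ ≤ 1 + n := by
    rw [inv_le_comm₀ (by linarith) (by positivity)]
    have h6 := Real.add_one_le_exp (G / (n : ℝ))
    have h7 : q = (Real.exp (G / (n : ℝ)))⁻¹ := by rw [hq, Real.exp_neg]
    have h8 : q ≤ (G / (n : ℝ) + 1)⁻¹ := by
      rw [h7]
      exact inv_anti₀ (by positivity) h6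
    have h9 : (1 + (n : ℝ))⁻¹ = 1 - (1 / (n : ℝ) + 1)⁻¹ := by
      field_simp
      ring
    have h10 : (G / (n : ℝ) + 1)⁻¹ ≤ (1 / (n : ℝ) + 1)⁻¹ := by
      apply inv_anti₀ (by positivity)
      have : 1 / (n : ℝ) ≤ G / n := by gcongr
      linarith
    rw [h9]
    linarith
  have hexp : (1 : ℝ) + n ≤ Real.exp (2 * G) := by
    have e : Real.exp (2 * G) = (n * H) * (n * H) := by
      rw [two_mul, Real.exp_add, heG]
    rw [e]
    nlinarith
  have hmu : 1 / μ ≤ Real.exp (|Real.log (1 / μ)| * G) := by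
    have h1 : 1 / μ = Real.exp (Real.log (1 / μ)) := (Real.exp_log (by positivity)).symm
    have h2 : Real.log (1 / μ) ≤ |Real.log (1 / μ)| * G := by
      have := le_abs_self (Real.log (1 / μ))
      have := abs_nonneg (Real.log (1 / μ))
      nlinarith
    calc 1 / μ = Real.exp (Real.log (1 / μ)) := h1
      _ ≤ _ := Real.exp_le_exp.2 h2
  calc Real.exp G * (1 / μ) * (1 - q)⁻¹ ≤
        Real.exp G * Real.exp (|Real.log (1 / μ)| * G) * Real.exp (2 * G) := by
        apply mul_le_mul (mul_le_mul_of_nonneg_left hmu (Real.exp_pos _).le) (hgeo.trans hexp)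
          (by have : q < 1 := hq1; exact inv_nonneg.2 (by linarith)) (by positivity)
    _ = _ := by
        rw [← Real.exp_add, ← Real.exp_add]
        congr 1
        ring

end Pool.Agent.H580.GT
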